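import Pool.Agent.Q88.Heat.Defs

/-!
Basic facts on the operators `Λ_σ(g)` and the canonical trace.
-/

open scoped InnerProductSpace

set_option linter.deprecated false
set_option linter.unusedSectionVars false
set_option linter.unusedVariables false

namespace Q88.Heat

noncomputable section

variable {G : Type*} [Group G] {σ : G → G → Circle}

theorem lam_apply (g : G) (f : L2 G) (x : G) :
    lam σ g f x = (σ g (g⁻¹ * x) : ℂ) * f (g⁻¹ * x) := rfl

theorem norm_lam_apply (g : G) (f : L2 G) : ‖lam σ g f‖ = ‖f‖ := norm_sq_translate σ g f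

theorem dl_apply [DecidableEq G] (g x : G) : (dl g : L2 G) x = if x = g then 1 else 0 := by
  unfold dl
  split_ifs with h
  · subst h
    exact @lp.single_apply_self G (fun _ => ℂ) _ (fun a b => Classical.propDecidable (a = b)) 2 x
      (1 : ℂ)
  · exact @lp.single_apply_ne G (fun _ => ℂ) _ (fun a b => Classical.propDecidable (a = b)) 2 g
      (1 : ℂ) x h

theorem dl_apply_self (g : G) : (dl g : L2 G) g = 1 := by
  classical
  rw [dl_apply, if_pos rfl]

theorem norm_dl (g : G) : ‖(dl g : L2 G)‖ = 1 := by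
  classical
  have h := lp.norm_single (E := fun _ : G => ℂ) (p := 2) (by norm_num) g (1 : ℂ)
  rw [norm_one] at h
  unfold dl
  convert h

theorem inner_dl (g : G) (f : L2 G) : ⟪(dl g : L2 G), f⟫_ℂ = f g := by
  classical
  have h := lp.inner_single_left (𝕜 := ℂ) (G := fun _ : G => ℂ) g (1 : ℂ) f
  have h2 : ⟪(1 : ℂ), f g⟫_ℂ = f g := by simp
  rw [h2] at h
  unfold dl
  convert h

theorem inner_dl_right (g : G) (f : L2 G) : ⟪f, (dl g : L2 G)⟫_ℂ = star (f g) := by
  rw [← inner_conj_symm, inner_dl]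
  rfl

theorem lam_dl (hσ : IsCocycle σ) (g h : G) : lam σ g (dl h) = (σ g h : ℂ) • dl (g * h) := by
  classical
  apply lp.ext
  funext x
  rw [lam_apply, dl_apply]
  show _ = (σ g h : ℂ) * (dl (g * h) : L2 G) x
  rw [dl_apply]
  by_cases hx : x = g * h
  · subst hx
    simp
  · have h1 : ¬ g⁻¹ * x = h := by
      intro h'
      apply hx
      rw [← h']
      group
    rw [if_neg h1, if_neg hx]
    simp

theorem lam_one (hσ : IsCocycle σ) : lam σ 1 = 1 := by
  ext f x
  rw [lam_apply]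
  simp [hσ.one_left]

theorem lam_mul (hσ : IsCocycle σ) (g h : G) :
    lam σ g * lam σ h = (σ g h : ℂ) • lam σ (g * h) := by
  ext f x
  show lam σ g (lam σ h f) x = (σ g h : ℂ) * (lam σ (g * h) f x)
  rw [lam_apply, lam_apply, lam_apply]
  have h1 : (g * h)⁻¹ * x = h⁻¹ * (g⁻¹ * x) := by group
  have h2 := hσ.assoc g h (h⁻¹ * (g⁻¹ * x))
  have h3 : h * (h⁻¹ * (g⁻¹ * x)) = g⁻¹ * x := by group
  rw [h3] at h2
  have h4 : (σ g h : ℂ) * (σ (g * h) (h⁻¹ * (g⁻¹ * x)) : ℂ) =
      (σ h (h⁻¹ * (g⁻¹ * x)) : ℂ) * (σ g (g⁻¹ * x) : ℂ) := by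
    exact_mod_cast congrArg (fun z : Circle => (z : ℂ)) h2
  rw [h1]
  linear_combination (-(f (h⁻¹ * (g⁻¹ * x)))) * h4

/-- the scalar in the adjoint -/
def adj (σ : G → G → Circle) (g : G) : ℂ := star (σ g g⁻¹ : ℂ)

theorem circle_star_mul (z : Circle) : star (z : ℂ) * (z : ℂ) = 1 := by
  rw [Complex.star_def, ← Complex.normSq_eq_conj_mul_self]
  simp

theorem circle_mul_star (z : Circle) : (z : ℂ) * star (z : ℂ) = 1 := by
  rw [mul_comm, circle_star_mul]

theorem sigma_inv (hσ : IsCocycle σ) (g : G) : σ g g⁻¹ = σ g⁻¹ g := by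
  have := hσ.assoc g g⁻¹ g
  rw [mul_inv_cancel, inv_mul_cancel, hσ.one_left, hσ.one_right, mul_one, mul_one] at this
  exact this

theorem inv_left (hσ : IsCocycle σ) (g : G) : (adj σ g • lam σ g⁻¹) * lam σ g = 1 := by
  rw [smul_mul_assoc, lam_mul hσ, inv_mul_cancel, lam_one hσ, smul_smul, adj, ← sigma_inv hσ,
    circle_star_mul, one_smul]

theorem inv_right (hσ : IsCocycle σ) (g : G) : lam σ g * (adj σ g • lam σ g⁻¹) = 1 := by
  rw [mul_smul_comm, lam_mul hσ, mul_inv_cancel, lam_one hσ, smul_smul, adj,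
    circle_star_mul, one_smul]

theorem star_lam_mul (g : G) : star (lam σ g) * lam σ g = 1 := by
  apply ContinuousLinearMap.ext
  intro f
  apply ext_inner_left ℂ
  intro f'
  rw [ContinuousLinearMap.star_eq_adjoint, ContinuousLinearMap.mul_apply,
    ContinuousLinearMap.adjoint_inner_right, ContinuousLinearMap.one_apply]
  have h := (LinearMap.norm_map_iff_inner_map_map (𝕜 := ℂ) (lam σ g)).1 (norm_lam_apply g)
  exact h f' f

theorem star_lam (hσ : IsCocycle σ) (g : G) : star (lam σ g) = adj σ g • lam σ g⁻¹ := by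
  have h1 := star_lam_mul (σ := σ) g
  calc star (lam σ g) = star (lam σ g) * (lam σ g * (adj σ g • lam σ g⁻¹)) := by
        rw [inv_right hσ, mul_one]
    _ = (star (lam σ g) * lam σ g) * (adj σ g • lam σ g⁻¹) := by rw [mul_assoc]
    _ = adj σ g • lam σ g⁻¹ := by rw [h1, one_mul]

theorem lam_mul_star (hσ : IsCocycle σ) (g : G) : lam σ g * star (lam σ g) = 1 := by
  rw [star_lam hσ, inv_right hσ]

instance : Nontrivial (L2 G) := by
  refine ⟨dl 1, 0, ?_⟩
  intro h
  have := norm_dl (1 : G)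
  rw [h, norm_zero] at this
  norm_num at this

theorem norm_lam (g : G) : ‖lam σ g‖ = 1 := by
  have h := CStarRing.norm_star_mul_self (x := lam σ g)
  rw [star_lam_mul, norm_one] at h
  nlinarith [norm_nonneg (lam σ g)]

/-- The canonical trace. -/
def tr : (L2 G →L[ℂ] L2 G) →ₗ[ℂ] ℂ where
  toFun x := ⟪(dl 1 : L2 G), x (dl 1)⟫_ℂ
  map_add' x y := by rw [ContinuousLinearMap.add_apply, inner_add_right]
  map_smul' c x := by
    rw [ContinuousLinearMap.smul_apply, inner_smul_right]
    rfl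

theorem tr_apply (x : L2 G →L[ℂ] L2 G) : tr x = ⟪(dl 1 : L2 G), x (dl 1)⟫_ℂ := rfl

theorem tr_lam (hσ : IsCocycle σ) [DecidableEq G] (g : G) :
    tr (lam σ g) = if g = 1 then 1 else 0 := by
  rw [tr_apply, lam_dl hσ, inner_smul_right, inner_dl, mul_one, hσ.one_right, dl_apply]
  simp [eq_comm]

theorem tr_one : tr (1 : L2 G →L[ℂ] L2 G) = 1 := by
  rw [tr_apply, ContinuousLinearMap.one_apply, inner_dl, dl_apply_self]

theorem lam_mem (g : G) : lam σ g ∈ spanL σ := Submodule.subset_span ⟨g, rfl⟩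

theorem one_mem' (hσ : IsCocycle σ) : (1 : L2 G →L[ℂ] L2 G) ∈ spanL σ := by
  rw [← lam_one hσ]
  exact lam_mem 1

theorem mul_mem' (hσ : IsCocycle σ) {a b : L2 G →L[ℂ] L2 G} (ha : a ∈ spanL σ)
    (hb : b ∈ spanL σ) : a * b ∈ spanL σ := by
  unfold spanL at *
  induction ha, hb using Submodule.span_induction₂ with
  | mem_mem x y hx hy =>
    obtain ⟨g, rfl⟩ := hx
    obtain ⟨h, rfl⟩ := hy
    rw [lam_mul hσ]
    exact Submodule.smul_mem _ _ (lam_mem _)
  | zero_left y hy => simp
  | zero_right x hx => simp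
  | add_left x y z hx hy hz h1 h2 => rw [add_mul]; exact Submodule.add_mem _ h1 h2
  | add_right x y z hx hy hz h1 h2 => rw [mul_add]; exact Submodule.add_mem _ h1 h2
  | smul_left r x y hx hy h => rw [smul_mul_assoc]; exact Submodule.smul_mem _ _ h
  | smul_right r x y hx hy h => rw [mul_smul_comm]; exact Submodule.smul_mem _ _ h

theorem star_mem' (hσ : IsCocycle σ) {a : L2 G →L[ℂ] L2 G} (ha : a ∈ spanL σ) :
    star a ∈ spanL σ := by
  unfold spanL at *
  induction ha using Submodule.span_induction with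
  | mem x hx =>
    obtain ⟨g, rfl⟩ := hx
    rw [star_lam hσ]
    exact Submodule.smul_mem _ _ (lam_mem _)
  | zero => simp
  | add x y hx hy h1 h2 => rw [star_add]; exact Submodule.add_mem _ h1 h2
  | smul r x hx h => rw [star_smul]; exact Submodule.smul_mem _ _ h

/-- The trace property on the span. -/
theorem tr_comm (hσ : IsCocycle σ) {a b : L2 G →L[ℂ] L2 G} (ha : a ∈ spanL σ)
    (hb : b ∈ spanL σ) : tr (a * b) = tr (b * a) := by
  classical
  unfold spanL at *
  induction ha, hb using Submodule.span_induction₂ with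
  | mem_mem x y hx hy =>
    obtain ⟨g, rfl⟩ := hx
    obtain ⟨h, rfl⟩ := hy
    rw [lam_mul hσ, lam_mul hσ, map_smul, map_smul, tr_lam hσ, tr_lam hσ]
    by_cases hgh : g * h = 1
    · have h1 : h = g⁻¹ := eq_inv_of_mul_eq_one_right hgh
      subst h1
      rw [if_pos (mul_inv_cancel g), if_pos (inv_mul_cancel g), sigma_inv hσ]
    · have h1 : ¬ h * g = 1 := by
        intro h'
        apply hgh
        rw [eq_inv_of_mul_eq_one_right h']
        group
      rw [if_neg hgh, if_neg h1]
      simp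
  | zero_left y hy => simp
  | zero_right x hx => simp
  | add_left x y z hx hy hz h1 h2 => rw [add_mul, mul_add, map_add, map_add, h1, h2]
  | add_right x y z hx hy hz h1 h2 => rw [mul_add, add_mul, map_add, map_add, h1, h2]
  | smul_left r x y hx hy h => rw [smul_mul_assoc, mul_smul_comm, map_smul, map_smul, h]
  | smul_right r x y hx hy h => rw [mul_smul_comm, smul_mul_assoc, map_smul, map_smul, h]

/-- the 2-norm squared -/
theorem tr_star_mul (x : L2 G →L[ℂ] L2 G) : tr (star x * x) = ((‖x (dl 1)‖ ^ 2 : ℝ) : ℂ) := by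
  rw [tr_apply, ContinuousLinearMap.mul_apply, ContinuousLinearMap.star_eq_adjoint,
    ContinuousLinearMap.adjoint_inner_right, inner_self_eq_norm_sq_to_K]
  norm_cast

/-- finite Fourier series -/
def op (σ : G → G → Circle) (F : Finset G) (a : G → ℂ) : L2 G →L[ℂ] L2 G :=
  ∑ g ∈ F, a g • lam σ g

theorem op_mem (F : Finset G) (a : G → ℂ) : op σ F a ∈ spanL σ :=
  Submodule.sum_mem _ fun g _ => Submodule.smul_mem _ _ (lam_mem g)

theorem hat_op (hσ : IsCocycle σ) [DecidableEq G] (F : Finset G) (a : G → ℂ) (g : G) :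
    hat (op σ F a) g = if g ∈ F then a g else 0 := by
  unfold hat op
  have h1 : (∑ h ∈ F, a h • lam σ h) (dl 1 : L2 G) = ∑ h ∈ F, a h • (dl h : L2 G) := by
    rw [ContinuousLinearMap.sum_apply]
    apply Finset.sum_congr rfl
    intro h _
    rw [ContinuousLinearMap.smul_apply, lam_dl hσ, mul_one, hσ.one_right]
    simp
  rw [h1, ← inner_dl, inner_sum]
  simp only [inner_smul_right, inner_dl, dl_apply]
  simp [Finset.sum_ite_eq]

end

end Q88.Heat
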