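import Mathlib

/-!
# Twisted group operator algebras, Fourier series and heat maps

* `L2 G` : the Hilbert space `ℓ²(G)`; `val f g` : the value of `f` at `g`; `dl g` : the basis vector
  `δ_g`; `Op G` : the C*-algebra of all bounded operators on it; `ap x f` : `x` applied to `f`.
* `IsCocycle σ` : `σ` is a normalized 2-cocycle with values in the circle.
* `IsLam σ Λ` : `Λ g` is the operator `Λ_σ(g)`, i.e. `Λ_σ(g) δ_h = σ(g, h) δ_{gh}`.
* `redC Λ`, `vN Λ` : the norm closure and the weak operator closure of the span of the `Λ_σ(g)`.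
* `hat x` : the Fourier coefficients `(x δ_e)(g)`; `CF Λ` : the elements of the reduced C*-algebra
  whose Fourier series converges unconditionally in norm.
* `ND0 d` : `d` is a negative definite function `G → [0, ∞)` with `d(e) = 0`.
* `IsHeat Λ d t M` : `M` is a bounded linear map of `vN Λ` into itself, continuous for the weak
  operator topology on bounded sets (that is, normal), with `M(Λ_σ(g)) = e^{-t d(g)} Λ_σ(g)`.
-/

open scoped InnerProductSpace

namespace Q88.HeatS

noncomputable section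

/-- The Hilbert space `ℓ²(G)`. -/
def L2 (G : Type*) : Type _ := lp (fun _ : G => ℂ) 2

instance (G : Type*) : NormedAddCommGroup (L2 G) :=
  (inferInstance : NormedAddCommGroup (lp (fun _ : G => ℂ) 2))

instance (G : Type*) : InnerProductSpace ℂ (L2 G) :=
  (inferInstance : InnerProductSpace ℂ (lp (fun _ : G => ℂ) 2))

instance (G : Type*) : CompleteSpace (L2 G) :=
  (inferInstance : CompleteSpace (lp (fun _ : G => ℂ) 2))

/-- The value at `g` of a vector in `ℓ²(G)`. -/
def val {G : Type*} (f : L2 G) (g : G) : ℂ := (show lp (fun _ : G => ℂ) 2 from f) g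

/-- The basis vector `δ_g`. -/
def dl {G : Type*} (g : G) : L2 G := by
  classical
  exact lp.single 2 g (1 : ℂ)

/-- Bounded operators on `ℓ²(G)`. -/
def Op (G : Type*) : Type _ := L2 G →L[ℂ] L2 G

instance (G : Type*) : CStarAlgebra (Op G) := (inferInstance : CStarAlgebra (L2 G →L[ℂ] L2 G))

/-- Application of an operator to a vector. -/
def ap {G : Type*} (x : Op G) (f : L2 G) : L2 G := (show L2 G →L[ℂ] L2 G from x) f

variable {G : Type*} [Group G]

/-- A normalized 2-cocycle with values in the circle. -/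
structure IsCocycle (σ : G → G → Circle) : Prop where
  assoc : ∀ g h k, σ g h * σ (g * h) k = σ h k * σ g (h * k)
  one_left : ∀ g, σ 1 g = 1
  one_right : ∀ g, σ g 1 = 1

/-- `Λ g` is the operator `Λ_σ(g)` on `ℓ²(G)`, that is, `Λ_σ(g) δ_h = σ(g, h) δ_{gh}`. -/
def IsLam (σ : G → G → Circle) (Λ : G → Op G) : Prop :=
  ∀ g h, ap (Λ g) (dl h) = (σ g h : ℂ) • dl (g * h)

/-- The linear span of the operators `Λ_σ(g)`. -/
def spanL (Λ : G → Op G) : Submodule ℂ (Op G) := Submodule.span ℂ (Set.range Λ)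

/-- The reduced twisted group C*-algebra. -/
def redC (Λ : G → Op G) : Set (Op G) := closure (spanL Λ : Set (Op G))

/-- The twisted group von Neumann algebra: the closure of the span of the `Λ_σ(g)` in the weak
operator topology (every weak neighbourhood of `x` meets the span). -/
def vN (Λ : G → Op G) : Set (Op G) :=
  {x | ∀ (n : ℕ) (ξ η : Fin n → L2 G) (ε : ℝ), 0 < ε →
    ∃ a ∈ spanL Λ, ∀ i, ‖⟪ξ i, ap (x - a) (η i)⟫_ℂ‖ < ε}

/-- The Fourier coefficients of an operator: `hat x g = (x δ_e)(g)`. -/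
def hat (x : Op G) (g : G) : ℂ := val (ap x (dl 1)) g

/-- The elements of the reduced C*-algebra whose Fourier series converges in operator norm as an
unordered sum. -/
def CF (Λ : G → Op G) : Set (Op G) :=
  {x | x ∈ redC Λ ∧ Summable fun g => hat x g • Λ g}

/-- Negative definite functions with values in `[0, ∞)` that vanish at the identity. -/
structure ND0 (d : G → ℝ) : Prop where
  nonneg : ∀ g, 0 ≤ d g
  one : d 1 = 0
  inv : ∀ g, d g⁻¹ = d g
  neg : ∀ (n : ℕ) (g : Fin n → G) (b : Fin n → ℂ), ∑ i, b i = 0 →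
    (∑ i, ∑ j, star (b i) * b j * (d ((g i)⁻¹ * g j) : ℂ)).re ≤ 0

/-- `M` is the heat map of `d` at time `t`: a bounded linear map of the twisted group von Neumann
algebra into itself that is normal (continuous for the weak operator topology on bounded sets) and
satisfies `M(Λ_σ(g)) = e^{-t d(g)} Λ_σ(g)` for all `g`. (`M` is only looked at on `vN Λ`.) -/
structure IsHeat (Λ : G → Op G) (d : G → ℝ) (t : ℝ) (M : Op G → Op G) : Prop where
  maps : ∀ x ∈ vN Λ, M x ∈ vN Λ
  add : ∀ x ∈ vN Λ, ∀ y ∈ vN Λ, M (x + y) = M x + M y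
  smul : ∀ (c : ℂ), ∀ x ∈ vN Λ, M (c • x) = c • M x
  bdd : ∃ K : ℝ, ∀ x ∈ vN Λ, ‖M x‖ ≤ K * ‖x‖
  normal : ∀ (r : ℝ), ∀ x ∈ vN Λ, ‖x‖ ≤ r → ∀ (ξ η : L2 G) (ε : ℝ), 0 < ε →
    ∃ (n : ℕ) (ξ' η' : Fin n → L2 G) (δ : ℝ), 0 < δ ∧ ∀ y ∈ vN Λ, ‖y‖ ≤ r →
      (∀ i, ‖⟪ξ' i, ap (y - x) (η' i)⟫_ℂ‖ < δ) → ‖⟪ξ, ap (M y - M x) η⟫_ℂ‖ < ε
  lam : ∀ g, M (Λ g) = (Real.exp (-(t * d g)) : ℂ) • Λ g

end

end Q88.HeatS
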