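import Pool.Agent.Q88.Heat.Final
import Pool.Agent.Q88.Heat.Stmt

/-!
Transfer of the main theorem to the wrapped types used in the statement.
-/

open scoped InnerProductSpace

namespace Q88.HeatS

noncomputable section

variable {G : Type*} [Group G]

theorem cocycle_raw {σ : G → G → Circle} (h : IsCocycle σ) : Heat.IsCocycle σ :=
  ⟨h.assoc, h.one_left, h.one_right⟩

theorem nd0_raw {d : G → ℝ} (h : ND0 d) : Heat.ND0 d := ⟨h.nonneg, h.one, h.inv, h.neg⟩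

theorem dl_raw (g : G) : (dl g : L2 G) = (Heat.dl g : Heat.L2 G) := rfl

theorem exists_isLam {σ : G → G → Circle} (hσ : IsCocycle σ) : ∃ Λ : G → Op G, IsLam σ Λ :=
  ⟨Heat.lam σ, fun g h => Heat.lam_dl (cocycle_raw hσ) g h⟩

theorem eq_of_dl {x y : Heat.L2 G →L[ℂ] Heat.L2 G} (h : ∀ g, x (Heat.dl g) = y (Heat.dl g)) :
    x = y := by
  classical
  ext1 f
  have h1 : HasSum (fun g => lp.single 2 g (f g)) f := lp.hasSum_single (by norm_num) f
  have h2 : ∀ g, (lp.single 2 g (f g) : Heat.L2 G) = f g • Heat.dl g := by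
    intro g
    apply lp.ext
    funext z
    show (lp.single 2 g (f g) : Heat.L2 G) z = f g * (Heat.dl g : Heat.L2 G) z
    rw [Heat.dl_apply]
    by_cases hz : z = g
    · subst hz
      rw [lp.single_apply_self, if_pos rfl, mul_one]
    · rw [lp.single_apply_ne _ _ _ hz, if_neg hz, mul_zero]
  have hx := x.hasSum h1
  have hy := y.hasSum h1
  have e : (fun g => x (lp.single 2 g (f g))) = fun g => y (lp.single 2 g (f g)) := by
    funext g
    rw [h2, map_smul, map_smul, h]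
  rw [e] at hx
  exact hx.unique hy

theorem isLam_raw {σ : G → G → Circle} (hσ : IsCocycle σ) {Λ : G → Op G} (h : IsLam σ Λ) :
    Λ = Heat.lam σ := by
  funext g
  apply eq_of_dl
  intro k
  rw [Heat.lam_dl (cocycle_raw hσ)]
  exact h g k

theorem isHeat_raw {σ : G → G → Circle} {d : G → ℝ} {t : ℝ} {M : Op G → Op G}
    (h : IsHeat (Heat.lam σ : G → Op G) d t M) : Heat.IsHeat σ d t M :=
  ⟨h.maps, h.add, h.smul, h.bdd, h.normal, h.lam⟩

theorem main [Infinite G] {σ : G → G → Circle} (hσ : IsCocycle σ) {d : G → ℝ} (hd : ND0 d)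
    (hub : ¬ ∃ K, ∀ g, d g ≤ K) :
    (∃ Λ : G → Op G, IsLam σ Λ) ∧ ∀ Λ : G → Op G, IsLam σ Λ →
    ∃ x₀ ∈ redC Λ, x₀ ∉ CF Λ ∧ ∀ t : ℝ, 0 < t →
      (∃ y ∈ CF Λ, ∀ g, hat y g = (Real.exp (-(t * d g)) : ℂ) * hat x₀ g) ∧
      (∀ M, IsHeat Λ d t M → M x₀ ∈ CF Λ) := by
  refine ⟨exists_isLam hσ, ?_⟩
  intro Λ hΛ
  have e := isLam_raw hσ hΛ
  subst e
  obtain ⟨x₀, h1, h2, h3⟩ := Heat.main (cocycle_raw hσ) (nd0_raw hd) hub
  refine ⟨x₀, h1, h2, fun t ht => ⟨(h3 t ht).1, fun M hM => (h3 t ht).2 M (isHeat_raw hM)⟩⟩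

end

end Q88.HeatS
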