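import Mathlib

/-!
# Twisted group operator algebras, Fourier series and heat maps

* `L2 G` : the Hilbert space `ℓ²(G)`; `dl g` : its basis vectors.
* `IsCocycle σ` : `σ` is a normalized 2-cocycle with values in the circle.
* `lam σ g` : the operator `Λ_σ(g) δ_h = σ(g, h) δ_{gh}`.
* `redC σ`, `vN σ` : the norm closure and the weak operator closure of the span of the `Λ_σ(g)`.
* `hat x` : the Fourier coefficients `(x δ_e)(g)`; `CF σ` : the elements of the reduced C*-algebra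
  whose Fourier series converges unconditionally in norm.
* `ND0 d` : `d` is a negative definite function `G → [0, ∞)` with `d(e) = 0`.
* `IsHeat σ d t M` : `M` is a bounded linear map of `vN σ` into itself, continuous for the weak
  operator topology on bounded sets (that is, normal), with `M(Λ_σ(g)) = e^{-t d(g)} Λ_σ(g)`.
-/

open scoped InnerProductSpace

namespace Q88.Heat

noncomputable section

variable {G : Type*} [Group G]

/-- The Hilbert space `ℓ²(G)`. -/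
abbrev L2 (G : Type*) := lp (fun _ : G => ℂ) 2

/-- A normalized 2-cocycle with values in the circle. -/
structure IsCocycle (σ : G → G → Circle) : Prop where
  assoc : ∀ g h k, σ g h * σ (g * h) k = σ h k * σ g (h * k)
  one_left : ∀ g, σ 1 g = 1
  one_right : ∀ g, σ g 1 = 1

theorem memlp_translate (σ : G → G → Circle) (g : G) (f : L2 G) :
    Memℓp (fun x : G => (σ g (g⁻¹ * x) : ℂ) * f (g⁻¹ * x)) 2 := by
  have h1 : Summable fun x => ‖f x‖ ^ (2 : ENNReal).toReal := (lp.memℓp f).summable (by norm_num)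
  apply memℓp_gen
  have h2 := (Equiv.mulLeft g⁻¹).summable_iff.2 h1
  refine h2.congr fun x => ?_
  rw [norm_mul, Circle.norm_coe, one_mul]
  rfl

theorem norm_sq_translate (σ : G → G → Circle) (g : G) (f : L2 G) :
    ‖(⟨fun x : G => (σ g (g⁻¹ * x) : ℂ) * f (g⁻¹ * x), memlp_translate σ g f⟩ : L2 G)‖ = ‖f‖ := by
  have h1 := lp.norm_rpow_eq_tsum (p := 2) (by norm_num) f
  have h2 := lp.norm_rpow_eq_tsum (p := 2) (by norm_num)
    (⟨fun x : G => (σ g (g⁻¹ * x) : ℂ) * f (g⁻¹ * x), memlp_translate σ g f⟩ : L2 G)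
  have h3 : ∑' x : G, ‖(σ g (g⁻¹ * x) : ℂ) * f (g⁻¹ * x)‖ ^ (2 : ENNReal).toReal =
      ∑' x : G, ‖f x‖ ^ (2 : ENNReal).toReal := by
    rw [← (Equiv.mulLeft g⁻¹).tsum_eq (fun x => ‖f x‖ ^ (2 : ENNReal).toReal)]
    apply tsum_congr
    intro x
    rw [norm_mul, Circle.norm_coe, one_mul]
    rfl
  rw [← h1] at h3
  have h4 : ‖(⟨fun x : G => (σ g (g⁻¹ * x) : ℂ) * f (g⁻¹ * x), memlp_translate σ g f⟩ : L2 G)‖ ^
      (2 : ENNReal).toReal = ‖f‖ ^ (2 : ENNReal).toReal := by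
    rw [h2]
    exact h3
  have h5 : ((2 : ENNReal).toReal) = ((2 : ℕ) : ℝ) := by norm_num
  rw [h5, Real.rpow_natCast, Real.rpow_natCast] at h4
  nlinarith [norm_nonneg (⟨fun x : G => (σ g (g⁻¹ * x) : ℂ) * f (g⁻¹ * x),
    memlp_translate σ g f⟩ : L2 G), norm_nonneg f]

/-- The operator `Λ_σ(g)`: `(Λ_σ(g) f)(x) = σ(g, g⁻¹ x) f(g⁻¹ x)`, so that
`Λ_σ(g) δ_h = σ(g, h) δ_{gh}`. -/
def lam (σ : G → G → Circle) (g : G) : L2 G →L[ℂ] L2 G :=
  LinearMap.mkContinuous
    { toFun := fun f => ⟨fun x : G => (σ g (g⁻¹ * x) : ℂ) * f (g⁻¹ * x), memlp_translate σ g f⟩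
      map_add' := fun f f' => by
        apply lp.ext
        funext x
        show (σ g (g⁻¹ * x) : ℂ) * (f (g⁻¹ * x) + f' (g⁻¹ * x)) = _
        rw [mul_add]
        rfl
      map_smul' := fun c f => by
        apply lp.ext
        funext x
        show (σ g (g⁻¹ * x) : ℂ) * (c * f (g⁻¹ * x)) = c * ((σ g (g⁻¹ * x) : ℂ) * f (g⁻¹ * x))
        ring } 1
    (fun f => by
      rw [one_mul]
      exact (norm_sq_translate σ g f).le)

/-- The basis vector `δ_g`. -/
def dl (g : G) : L2 G := by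
  classical
  exact lp.single 2 g (1 : ℂ)

/-- The linear span of the operators `Λ_σ(g)`. -/
def spanL (σ : G → G → Circle) : Submodule ℂ (L2 G →L[ℂ] L2 G) :=
  Submodule.span ℂ (Set.range (lam σ))

/-- The reduced twisted group C*-algebra. -/
def redC (σ : G → G → Circle) : Set (L2 G →L[ℂ] L2 G) := closure (spanL σ : Set (L2 G →L[ℂ] L2 G))

/-- The twisted group von Neumann algebra: the closure of the span of the `Λ_σ(g)` in the weak
operator topology (every weak neighbourhood of `x` meets the span). -/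
def vN (σ : G → G → Circle) : Set (L2 G →L[ℂ] L2 G) :=
  {x | ∀ (n : ℕ) (ξ η : Fin n → L2 G) (ε : ℝ), 0 < ε →
    ∃ a ∈ spanL σ, ∀ i, ‖⟪ξ i, (x - a) (η i)⟫_ℂ‖ < ε}

/-- The Fourier coefficients of an operator: `hat x g = (x δ_e)(g)`. -/
def hat (x : L2 G →L[ℂ] L2 G) (g : G) : ℂ := x (dl 1) g

/-- The elements of the reduced C*-algebra whose Fourier series converges in operator norm as an
unordered sum. -/
def CF (σ : G → G → Circle) : Set (L2 G →L[ℂ] L2 G) :=
  {x | x ∈ redC σ ∧ Summable fun g => hat x g • lam σ g}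

/-- Negative definite functions with values in `[0, ∞)` that vanish at the identity. -/
structure ND0 (d : G → ℝ) : Prop where
  nonneg : ∀ g, 0 ≤ d g
  one : d 1 = 0
  inv : ∀ g, d g⁻¹ = d g
  neg : ∀ (n : ℕ) (g : Fin n → G) (b : Fin n → ℂ), ∑ i, b i = 0 →
    (∑ i, ∑ j, star (b i) * b j * (d ((g i)⁻¹ * g j) : ℂ)).re ≤ 0

/-- `M` is the heat map of `d` at time `t`: a bounded linear map of the twisted group von Neumann
algebra into itself that is normal (continuous for the weak operator topology on bounded sets) and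
satisfies `M(Λ_σ(g)) = e^{-t d(g)} Λ_σ(g)` for all `g`. (`M` is only looked at on `vN σ`.) -/
structure IsHeat (σ : G → G → Circle) (d : G → ℝ) (t : ℝ)
    (M : (L2 G →L[ℂ] L2 G) → (L2 G →L[ℂ] L2 G)) : Prop where
  maps : ∀ x ∈ vN σ, M x ∈ vN σ
  add : ∀ x ∈ vN σ, ∀ y ∈ vN σ, M (x + y) = M x + M y
  smul : ∀ (c : ℂ), ∀ x ∈ vN σ, M (c • x) = c • M x
  bdd : ∃ K : ℝ, ∀ x ∈ vN σ, ‖M x‖ ≤ K * ‖x‖
  normal : ∀ (r : ℝ), ∀ x ∈ vN σ, ‖x‖ ≤ r → ∀ (ξ η : L2 G) (ε : ℝ), 0 < ε →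
    ∃ (n : ℕ) (ξ' η' : Fin n → L2 G) (δ : ℝ), 0 < δ ∧ ∀ y ∈ vN σ, ‖y‖ ≤ r →
      (∀ i, ‖⟪ξ' i, (y - x) (η' i)⟫_ℂ‖ < δ) → ‖⟪ξ, (M y - M x) η⟫_ℂ‖ < ε
  lam : ∀ g, M (Heat.lam σ g) = (Real.exp (-(t * d g)) : ℂ) • Heat.lam σ g

end

end Q88.Heat
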