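import Pool.Agent.Q88.Heat.Iter

/-!
Construction of the element whose heat smoothing has an absolutely convergent Fourier series.
-/

open scoped InnerProductSpace
open Filter Topology

set_option linter.deprecated false
set_option linter.unusedSectionVars false
set_option linter.unusedVariables false

namespace Q88.Heat

noncomputable section

variable {G : Type*} [Group G] {σ : G → G → Circle} {d : G → ℝ}

/-- A negative definite function is almost subadditive. -/
theorem ND0.mul_le (hd : ND0 d) (a b : G) : d (a * b) ≤ 2 * d a + 2 * d b := by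
  have h := hd.neg 3 (fun i => if i = 0 then a else if i = 1 then 1 else a * b)
    (fun i => if i = 0 then -2 else 1) (by
      rw [Fin.sum_univ_three]
      simp
      norm_num)
  have e1 : d (a⁻¹ * (a * b)) = d b := by rw [inv_mul_cancel_left]
  have e2 : d a⁻¹ = d a := hd.inv a
  have e3 : d ((a * b)⁻¹ * a) = d b := by
    rw [← hd.inv]
    congr 1
    group
  have e4 : d (a * b)⁻¹ = d (a * b) := hd.inv _
  have h02 : ¬ ((2 : Fin 3) = 0) := by decide
  have h12 : ¬ ((2 : Fin 3) = 1) := by decide
  have h10 : ¬ ((1 : Fin 3) = 0) := by decide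
  simp only [Fin.sum_univ_three, if_true, h02, h12, h10, if_false, inv_mul_cancel, hd.one,
    mul_one, inv_one, one_mul, e1, e2, e3, e4] at h
  simp at h
  linarith

theorem ND0.translate (hd : ND0 d) (g f : G) : d g / 2 - d f ≤ d (g * f) := by
  have h := hd.mul_le (g * f) f⁻¹
  rw [mul_inv_cancel_right, hd.inv] at h
  linarith

theorem op_image (hσ : IsCocycle σ) [DecidableEq G] (g : G) (F : Finset G) (c : G → ℂ) :
    op σ (F.image (g * ·)) (fun x => σ g (g⁻¹ * x) * c (g⁻¹ * x)) = lam σ g * op σ F c := by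
  unfold op
  rw [Finset.sum_image (fun x _ y _ hxy => mul_left_cancel hxy), Finset.mul_sum]
  apply Finset.sum_congr rfl
  intro x _
  simp only [inv_mul_cancel_left]
  rw [mul_smul_comm, lam_mul hσ, smul_smul, mul_comm]

theorem norm_lam_mul (g : G) (X : L2 G →L[ℂ] L2 G) : ‖lam σ g * X‖ = ‖X‖ := by
  apply le_antisymm
  · calc ‖lam σ g * X‖ ≤ ‖lam σ g‖ * ‖X‖ := norm_mul_le _ _
      _ = ‖X‖ := by rw [norm_lam, one_mul]
  · calc ‖X‖ = ‖star (lam σ g) * (lam σ g * X)‖ := by rw [← mul_assoc, star_lam_mul, one_mul]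
      _ ≤ ‖star (lam σ g)‖ * ‖lam σ g * X‖ := norm_mul_le _ _
      _ = ‖lam σ g * X‖ := by
          have h : ‖star (lam σ g)‖ = 1 := (norm_star (lam σ g)).trans (norm_lam g)
          rw [h, one_mul]

/-- The properties of a block. -/
structure BlockOK (σ : G → G → Circle) (d : G → ℝ) (κ : ℕ) (F : Finset G) (c : G → ℂ)
    (A : Finset G) : Prop where
  sub : A ⊆ F
  norm_le : ‖op σ F c‖ ≤ 1
  large : (4 : ℝ) ^ κ ≤ ‖op σ A c‖
  far : ∀ x ∈ F, (κ : ℝ) * F.card ≤ d x

theorem exists_block [Infinite G] [DecidableEq G] (hσ : IsCocycle σ) (hd : ND0 d)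
    (hub : ¬ ∃ K, ∀ g, d g ≤ K) (κ : ℕ) (D : ℝ) :
    ∃ (F : Finset G) (c : G → ℂ) (A : Finset G), BlockOK σ d κ F c A ∧ ∀ x ∈ F, D < d x := by
  obtain ⟨F, c, A, hA, hF, hC⟩ := key hσ (4 ^ κ)
  push Not at hub
  obtain ⟨g, hg⟩ := hub (2 * (|D| + κ * F.card + ∑ f ∈ F, d f) + 1)
  have hlow : ∀ x ∈ F.image (g * ·), |D| + κ * F.card < d x := by
    intro x hx
    obtain ⟨f, hf, rfl⟩ := Finset.mem_image.1 hx
    have h1 := hd.translate g f
    have h2 : d f ≤ ∑ f ∈ F, d f := Finset.single_le_sum (fun f _ => hd.nonneg f) hf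
    linarith
  refine ⟨F.image (g * ·), fun x => σ g (g⁻¹ * x) * c (g⁻¹ * x), A.image (g * ·),
    ⟨Finset.image_subset_image hA, ?_, ?_, ?_⟩, ?_⟩
  · rw [op_image hσ, norm_lam_mul]
    exact hF
  · rw [op_image hσ, norm_lam_mul]
    exact hC
  · intro x hx
    have h1 := hlow x hx
    have h2 : ((F.image (g * ·)).card : ℝ) ≤ F.card := by exact_mod_cast Finset.card_image_le
    have h3 : (κ : ℝ) * (F.image (g * ·)).card ≤ κ * F.card :=
      mul_le_mul_of_nonneg_left h2 (Nat.cast_nonneg _)
    have h4 := abs_nonneg D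
    linarith
  · intro x hx
    have h1 := hlow x hx
    have h2 : (0 : ℝ) ≤ κ * F.card := by positivity
    have h4 := le_abs_self D
    linarith

/-- A sequence of blocks. -/
theorem exists_blocks [Infinite G] [DecidableEq G] (hσ : IsCocycle σ) (hd : ND0 d)
    (hub : ¬ ∃ K, ∀ g, d g ≤ K) :
    ∃ (κ : ℕ → ℕ) (F : ℕ → Finset G) (c : ℕ → G → ℂ) (A : ℕ → Finset G),
      (∀ n, BlockOK σ d (κ n) (F n) (c n) (A n)) ∧ (∀ n, n ≤ κ n) ∧
      (∀ m n, m < n → ∀ f ∈ F m, ∀ f' ∈ F n, d f < d f') := by
  obtain ⟨b, hb1, hb2⟩ := exists_seq_of_forall_finset_exists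
    (α := ℕ × Finset G × (G → ℂ) × Finset G)
    (fun b => BlockOK σ d b.1 b.2.1 b.2.2.1 b.2.2.2)
    (fun b b' => b.1 < b'.1 ∧ ∀ f ∈ b.2.1, ∀ f' ∈ b'.2.1, d f < d f')
    (by
      classical
      intro s _
      obtain ⟨F, c, A, h1, h2⟩ := exists_block hσ hd hub (∑ b ∈ s, b.1 + 1)
        (∑ b ∈ s, ∑ f ∈ b.2.1, d f)
      refine ⟨(∑ b ∈ s, b.1 + 1, F, c, A), h1, ?_⟩
      intro x hx
      constructor
      · have : x.1 ≤ ∑ b ∈ s, b.1 := Finset.single_le_sum (fun _ _ => Nat.zero_le _) hx
        exact Nat.lt_succ_of_le this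
      · intro f hf f' hf'
        refine lt_of_le_of_lt ?_ (h2 f' hf')
        calc d f ≤ ∑ f ∈ x.2.1, d f := Finset.single_le_sum (fun f _ => hd.nonneg f) hf
          _ ≤ ∑ b ∈ s, ∑ f ∈ b.2.1, d f :=
            Finset.single_le_sum (f := fun b : ℕ × Finset G × (G → ℂ) × Finset G =>
              ∑ f ∈ b.2.1, d f) (fun b _ => Finset.sum_nonneg fun f _ => hd.nonneg f) hx)
  refine ⟨fun n => (b n).1, fun n => (b n).2.1, fun n => (b n).2.2.1, fun n => (b n).2.2.2,
    hb1, ?_, fun m n hmn => (hb2 m n hmn).2⟩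
  intro n
  have hmono : StrictMono fun n => (b n).1 := strictMono_nat_of_lt_succ fun n =>
    (hb2 n (n + 1) (Nat.lt_succ_self n)).1
  exact hmono.id_le n

/-- evaluation of a Fourier coefficient, as a continuous linear functional -/
def hatL (g : G) : (L2 G →L[ℂ] L2 G) →L[ℂ] ℂ :=
  (innerSL ℂ (dl g : L2 G)).comp (ContinuousLinearMap.apply ℂ (L2 G) (dl 1 : L2 G))

theorem hatL_apply (g : G) (x : L2 G →L[ℂ] L2 G) : hatL g x = hat x g := by
  unfold hatL hat
  rw [← inner_dl]
  rfl

theorem norm_hat_le (x : L2 G →L[ℂ] L2 G) (g : G) : ‖hat x g‖ ≤ ‖x‖ := by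
  unfold hat
  rw [← inner_dl]
  calc ‖⟪(dl g : L2 G), x (dl 1)⟫_ℂ‖ ≤ ‖(dl g : L2 G)‖ * ‖x (dl 1)‖ := norm_inner_le_norm _ _
    _ ≤ 1 * (‖x‖ * ‖(dl 1 : L2 G)‖) := by
        rw [norm_dl]
        exact mul_le_mul_of_nonneg_left (x.le_opNorm _) zero_le_one
    _ = ‖x‖ := by rw [norm_dl]; ring

theorem redC_subset_vN : redC σ ⊆ vN σ := by
  intro x hx n ξ η ε hε
  set B : ℝ := 1 + ∑ i, ‖ξ i‖ * ‖η i‖ with hB
  have hB0 : 0 < B := by
    have : 0 ≤ ∑ i, ‖ξ i‖ * ‖η i‖ := Finset.sum_nonneg fun i _ => by positivity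
    linarith
  obtain ⟨a, ha, hxa⟩ := Metric.mem_closure_iff.1 hx (ε / B) (by positivity)
  refine ⟨a, ha, fun i => ?_⟩
  rw [dist_eq_norm] at hxa
  have h1 : ‖ξ i‖ * ‖η i‖ ≤ ∑ i, ‖ξ i‖ * ‖η i‖ :=
    Finset.single_le_sum (f := fun i => ‖ξ i‖ * ‖η i‖) (fun i _ => by positivity)
      (Finset.mem_univ i)
  calc ‖⟪ξ i, (x - a) (η i)⟫_ℂ‖ ≤ ‖ξ i‖ * ‖(x - a) (η i)‖ := norm_inner_le_norm _ _
    _ ≤ ‖ξ i‖ * (‖x - a‖ * ‖η i‖) :=
        mul_le_mul_of_nonneg_left ((x - a).le_opNorm _) (norm_nonneg _)
    _ = ‖x - a‖ * (‖ξ i‖ * ‖η i‖) := by ring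
    _ ≤ ‖x - a‖ * (B - 1) := mul_le_mul_of_nonneg_left (by linarith) (norm_nonneg _)
    _ < ε := by
        have h2 : ‖x - a‖ * B < ε := by rwa [lt_div_iff₀ hB0] at hxa
        nlinarith [norm_nonneg (x - a)]

theorem spanL_subset_redC : (spanL σ : Set (L2 G →L[ℂ] L2 G)) ⊆ redC σ := subset_closure

theorem exp_bound {t : ℝ} (ht : 0 < t) {n : ℕ} (hn : 1 ≤ n) {N : ℕ} (hN : 0 < N) :
    (N : ℝ) * Real.exp (-(t * (n * N))) ≤ 1 / t := by
  have hN' : (0 : ℝ) < N := by exact_mod_cast hN
  have hn' : (1 : ℝ) ≤ n := by exact_mod_cast hn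
  have h1 : t * N ≤ Real.exp (t * (n * N)) := by
    have := Real.add_one_le_exp (t * (n * N))
    have h2 : t * N ≤ t * (n * N) := by
      apply mul_le_mul_of_nonneg_left _ ht.le
      nlinarith
    linarith
  rw [Real.exp_neg, le_div_iff₀ ht]
  have hpos := Real.exp_pos (t * (n * N))
  rw [mul_assoc, mul_comm, inv_mul_eq_div, div_mul_eq_mul_div, div_le_one hpos]
  exact h1

theorem main [Infinite G] (hσ : IsCocycle σ) (hd : ND0 d)
    (hub : ¬ ∃ K, ∀ g, d g ≤ K) :
    ∃ x₀ ∈ redC σ, x₀ ∉ CF σ ∧ ∀ t : ℝ, 0 < t →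
      (∃ y ∈ CF σ, ∀ g, hat y g = (Real.exp (-(t * d g)) : ℂ) * hat x₀ g) ∧
      (∀ M, IsHeat σ d t M → M x₀ ∈ CF σ) := by
  classical
  obtain ⟨κ, F, c, A, hok, hκ, hsep⟩ := exists_blocks hσ hd hub
  have hdisj : ∀ m n, ∀ g, g ∈ F m → g ∈ F n → m = n := by
    intro m n g hm hn
    rcases lt_trichotomy m n with h | h | h
    · exact absurd (hsep m n h g hm g hn) (lt_irrefl _)
    · exact h
    · exact absurd (hsep n m h g hn g hm) (lt_irrefl _)
  have hdn : ∀ n, ∀ g ∈ F n, (n : ℝ) ≤ d g := by
    intro n g hg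
    have h1 := (hok n).far g hg
    have h2 : (1 : ℝ) ≤ (F n).card := by exact_mod_cast Finset.card_pos.2 ⟨g, hg⟩
    have h3 : (n : ℝ) ≤ κ n := by exact_mod_cast hκ n
    nlinarith
  -- general facts on block series with damped coefficients
  set term : (G → ℝ) → ℕ → (L2 G →L[ℂ] L2 G) := fun φ n =>
    ((1 / 2 : ℝ) ^ n : ℂ) • op σ (F n) (fun g => (φ g : ℂ) * c n g) with hterm
  have hhat : ∀ (φ : G → ℝ) (n : ℕ) (g : G), hat (term φ n) g =
      if g ∈ F n then ((1 / 2 : ℝ) ^ n : ℂ) * ((φ g : ℂ) * c n g) else 0 := by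
    intro φ n g
    rw [← hatL_apply, hterm]
    simp only [map_smul, hatL_apply, hat_op hσ, smul_eq_mul]
    split_ifs <;> simp
  -- the element
  have hsum : Summable (term fun _ => 1) := by
    apply Summable.of_norm_bounded (g := fun n => (1 / 2 : ℝ) ^ n)
      (summable_geometric_of_lt_one (by norm_num) (by norm_num))
    intro n
    rw [hterm]
    simp only [Complex.ofReal_one, one_mul]
    rw [norm_smul]
    have h1 : ‖(((1 / 2 : ℝ) ^ n : ℂ))‖ = (1 / 2 : ℝ) ^ n := by
      rw [norm_pow, Complex.norm_real]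
      norm_num
    rw [h1]
    calc (1 / 2 : ℝ) ^ n * ‖op σ (F n) (c n)‖ ≤ (1 / 2 : ℝ) ^ n * 1 :=
        mul_le_mul_of_nonneg_left (hok n).norm_le (by positivity)
      _ = (1 / 2 : ℝ) ^ n := mul_one _
  set x₀ := ∑' n, term (fun _ => 1) n with hx₀
  have hx₀sum : HasSum (term fun _ => 1) x₀ := hsum.hasSum
  have htm : ∀ φ n, term φ n ∈ spanL σ := fun φ n => Submodule.smul_mem _ _ (op_mem _ _)
  have hx₀mem : x₀ ∈ redC σ := by
    refine mem_closure_of_tendsto hx₀sum.tendsto_sum_nat (Eventually.of_forall fun N => ?_)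
    exact Submodule.sum_mem _ fun n _ => htm _ n
  have hhatx : ∀ g, HasSum (fun n => hat (term (fun _ => 1) n) g) (hat x₀ g) := by
    intro g
    have h1 := (hatL g).hasSum hx₀sum
    simp only [hatL_apply] at h1
    exact h1
  have hhatF : ∀ n, ∀ g ∈ F n, hat x₀ g = ((1 / 2 : ℝ) ^ n : ℂ) * c n g := by
    intro n g hg
    have h1 : HasSum (fun m => hat (term (fun _ => 1) m) g) (hat (term (fun _ => 1) n) g) := by
      apply hasSum_single
      intro m hm
      rw [hhat, if_neg]
      intro hgm
      exact hm (hdisj m n g hgm hg)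
    rw [(hhatx g).unique h1, hhat, if_pos hg]
    simp
  have hhat0 : ∀ g, (∀ n, g ∉ F n) → hat x₀ g = 0 := by
    intro g hg
    have h1 : HasSum (fun m => hat (term (fun _ => 1) m) g) 0 := by
      have : (fun m => hat (term (fun _ => 1) m) g) = fun _ => 0 := by
        funext m
        rw [hhat, if_neg (hg m)]
      rw [this]
      exact hasSum_zero
    exact (hhatx g).unique h1
  refine ⟨x₀, hx₀mem, ?_, ?_⟩
  · -- the Fourier series of `x₀` does not converge unconditionally
    rintro ⟨-, hs⟩
    rw [summable_iff_vanishing_norm] at hs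
    obtain ⟨s, hs⟩ := hs 1 one_pos
    obtain ⟨n, hn⟩ := exists_nat_gt (∑ g ∈ s, d g)
    have hd' : Disjoint (A n) s := by
      rw [Finset.disjoint_left]
      intro g hg hgs
      have h1 := hdn n g ((hok n).sub hg)
      have h2 : d g ≤ ∑ g ∈ s, d g := Finset.single_le_sum (fun g _ => hd.nonneg g) hgs
      linarith
    have h1 := hs (A n) hd'
    have h2 : ∑ g ∈ A n, hat x₀ g • lam σ g = ((1 / 2 : ℝ) ^ n : ℂ) • op σ (A n) (c n) := by
      unfold op
      rw [Finset.smul_sum]
      apply Finset.sum_congr rfl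
      intro g hg
      rw [hhatF n g ((hok n).sub hg), smul_smul]
    rw [h2, norm_smul] at h1
    have h3 : ‖(((1 / 2 : ℝ) ^ n : ℂ))‖ = (1 / 2 : ℝ) ^ n := by
      rw [norm_pow, Complex.norm_real]
      norm_num
    rw [h3] at h1
    have h4 : (4 : ℝ) ^ n ≤ ‖op σ (A n) (c n)‖ :=
      (pow_le_pow_right₀ (by norm_num) (hκ n)).trans (hok n).large
    have h5 : (1 / 2 : ℝ) ^ n * 4 ^ n ≤ (1 / 2 : ℝ) ^ n * ‖op σ (A n) (c n)‖ :=
      mul_le_mul_of_nonneg_left h4 (by positivity)
    have h6 : (1 / 2 : ℝ) ^ n * 4 ^ n = 2 ^ n := by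
      rw [← mul_pow]
      norm_num
    have h7 : (1 : ℝ) ≤ 2 ^ n := one_le_pow₀ (by norm_num)
    rw [h6] at h5
    linarith
  · intro t ht
    -- the damped coefficients are absolutely summable
    set w : G → ℂ := fun g => (Real.exp (-(t * d g)) : ℂ) * hat x₀ g with hw
    have hwsum : Summable fun g => ‖w g‖ := by
      apply summable_of_sum_le (c := 2 * ((F 0).card + 1 / t)) (fun g => norm_nonneg _)
      intro T
      obtain ⟨N, hN⟩ := exists_nat_gt (∑ g ∈ T, d g)
      have h1 : ∀ g ∈ T, ‖w g‖ ≤ ∑ n ∈ Finset.range N, (if g ∈ F n then ‖w g‖ else 0) := by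
        intro g hg
        by_cases hex : ∃ n, g ∈ F n
        · obtain ⟨n, hn⟩ := hex
          have h2 := hdn n g hn
          have h3 : d g ≤ ∑ g ∈ T, d g := Finset.single_le_sum (fun g _ => hd.nonneg g) hg
          have h4 : n ∈ Finset.range N := by
            rw [Finset.mem_range]
            have : (n : ℝ) < N := by linarith
            exact_mod_cast this
          have h5 := Finset.single_le_sum (f := fun n => if g ∈ F n then ‖w g‖ else 0)
            (fun n _ => by split_ifs <;> positivity) h4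
          simp only [if_pos hn] at h5
          exact h5
        · push Not at hex
          have : w g = 0 := by rw [hw]; simp only [hhat0 g hex, mul_zero]
          rw [this, norm_zero]
          exact Finset.sum_nonneg fun n _ => by split_ifs <;> simp
      have hcoef : ∀ n, ∀ g ∈ F n, ‖w g‖ ≤ (1 / 2 : ℝ) ^ n * Real.exp (-(t * (n * (F n).card))) := by
        intro n g hg
        rw [hw]
        simp only
        rw [hhatF n g hg, norm_mul, norm_mul]
        have h3 : ‖(((1 / 2 : ℝ) ^ n : ℂ))‖ = (1 / 2 : ℝ) ^ n := by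
          rw [norm_pow, Complex.norm_real]
          norm_num
        have h4 : ‖c n g‖ ≤ 1 := by
          have := norm_hat_le (op σ (F n) (c n)) g
          rw [hat_op hσ, if_pos hg] at this
          exact this.trans (hok n).norm_le
        have h5 : ‖(Real.exp (-(t * d g)) : ℂ)‖ = Real.exp (-(t * d g)) := by
          rw [Complex.norm_real, Real.norm_eq_abs, abs_of_pos (Real.exp_pos _)]
        have h6 : (n : ℝ) * (F n).card ≤ d g := by
          have h7 := (hok n).far g hg
          have h8 : (n : ℝ) ≤ κ n := by exact_mod_cast hκ n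
          have h9 : (n : ℝ) * (F n).card ≤ κ n * (F n).card :=
            mul_le_mul_of_nonneg_right h8 (Nat.cast_nonneg _)
          linarith
        have h7 : Real.exp (-(t * d g)) ≤ Real.exp (-(t * (n * (F n).card))) := by
          apply Real.exp_le_exp.2
          have := mul_le_mul_of_nonneg_left h6 ht.le
          linarith
        rw [h3, h5]
        calc Real.exp (-(t * d g)) * ((1 / 2 : ℝ) ^ n * ‖c n g‖)
            ≤ Real.exp (-(t * (n * (F n).card))) * ((1 / 2 : ℝ) ^ n * 1) := by
              apply mul_le_mul h7 _ (by positivity) (Real.exp_pos _).le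
              exact mul_le_mul_of_nonneg_left h4 (by positivity)
          _ = _ := by ring
      have hblock : ∀ n, ∑ g ∈ T, (if g ∈ F n then ‖w g‖ else 0) ≤
          (1 / 2 : ℝ) ^ n * ((F 0).card + 1 / t) := by
        intro n
        have h2 : ∑ g ∈ T, (if g ∈ F n then ‖w g‖ else 0) ≤
            ∑ g ∈ F n, (1 / 2 : ℝ) ^ n * Real.exp (-(t * (n * (F n).card))) := by
          rw [← Finset.sum_filter]
          calc ∑ g ∈ T.filter (fun g => g ∈ F n), ‖w g‖
              ≤ ∑ g ∈ F n, ‖w g‖ := by
                apply Finset.sum_le_sum_of_subset_of_nonneg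
                · intro g hg
                  exact (Finset.mem_filter.1 hg).2
                · intro g _ _
                  exact norm_nonneg _
            _ ≤ _ := Finset.sum_le_sum (hcoef n)
        refine h2.trans ?_
        rw [Finset.sum_const, nsmul_eq_mul]
        have h3 : ((F n).card : ℝ) * Real.exp (-(t * (n * (F n).card))) ≤ (F 0).card + 1 / t := by
          rcases Nat.eq_zero_or_pos n with h0 | h0
          · subst h0
            simp only [Nat.cast_zero, zero_mul, mul_zero, neg_zero, Real.exp_zero, mul_one]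
            have : 0 < 1 / t := by positivity
            linarith
          · rcases Nat.eq_zero_or_pos (F n).card with h00 | h00
            · rw [h00]
              simp only [Nat.cast_zero, zero_mul]
              positivity
            · have h5 := exp_bound ht h0 h00
              have : (0 : ℝ) ≤ (F 0).card := Nat.cast_nonneg _
              linarith
        calc ((F n).card : ℝ) * ((1 / 2 : ℝ) ^ n * Real.exp (-(t * (n * (F n).card))))
            = (1 / 2 : ℝ) ^ n * (((F n).card : ℝ) * Real.exp (-(t * (n * (F n).card)))) := by ring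
          _ ≤ _ := mul_le_mul_of_nonneg_left h3 (by positivity)
      calc ∑ g ∈ T, ‖w g‖ ≤ ∑ g ∈ T, ∑ n ∈ Finset.range N, (if g ∈ F n then ‖w g‖ else 0) :=
            Finset.sum_le_sum h1
        _ = ∑ n ∈ Finset.range N, ∑ g ∈ T, (if g ∈ F n then ‖w g‖ else 0) := Finset.sum_comm
        _ ≤ ∑ n ∈ Finset.range N, (1 / 2 : ℝ) ^ n * ((F 0).card + 1 / t) :=
            Finset.sum_le_sum fun n _ => hblock n
        _ = (∑ n ∈ Finset.range N, (1 / 2 : ℝ) ^ n) * ((F 0).card + 1 / t) := by
            rw [Finset.sum_mul]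
        _ ≤ 2 * ((F 0).card + 1 / t) := by
            apply mul_le_mul_of_nonneg_right _ (by positivity)
            have h2 := Summable.sum_le_tsum (Finset.range N)
              (fun n _ => by positivity)
              (summable_geometric_of_lt_one (r := (1 / 2 : ℝ)) (by norm_num) (by norm_num))
            rwa [tsum_geometric_two] at h2
    have hwop : Summable fun g => w g • lam σ g := by
      apply Summable.of_norm
      simpa only [norm_smul, norm_lam, mul_one] using hwsum
    constructor
    · -- the explicit element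
      set y := ∑' g, w g • lam σ g with hy
      have hyh : ∀ g, hat y g = w g := by
        intro g
        have h1 := (hatL g).hasSum hwop.hasSum
        have h2 : HasSum (fun h => hatL g (w h • lam σ h)) (w g) := by
          have h3 : (fun h => hatL g (w h • lam σ h)) = fun h => if h = g then w g else 0 := by
            funext h
            rw [map_smul, hatL_apply]
            have h4 : hat (lam σ h) g = if g = h then 1 else 0 := by
              unfold hat
              rw [lam_dl hσ, mul_one, hσ.one_right]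
              simp only [Circle.coe_one, one_smul]
              rw [dl_apply]
            rw [h4]
            by_cases hgh : h = g
            · subst hgh
              simp
            · rw [if_neg (Ne.symm hgh), if_neg hgh]
              simp
          rw [h3]
          exact hasSum_ite_eq g (w g)
        rw [← hatL_apply]
        exact h1.unique h2
      refine ⟨y, ⟨?_, ?_⟩, hyh⟩
      · refine mem_closure_of_tendsto hwop.hasSum (Eventually.of_forall fun s => ?_)
        exact Submodule.sum_mem _ fun g _ => Submodule.smul_mem _ _ (lam_mem g)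
      · simp only [hyh]
        exact hwop
    · -- the heat map
      intro M hM
      have hspan : ∀ a ∈ spanL σ, a ∈ vN σ := fun a ha => redC_subset_vN (spanL_subset_redC ha)
      have hx₀v : x₀ ∈ vN σ := redC_subset_vN hx₀mem
      obtain ⟨K, hK⟩ := hM.bdd
      -- `M` on finite sums
      have hM0 : M 0 = 0 := by
        have := hM.smul 0 0 (hspan 0 (Submodule.zero_mem _))
        simpa using this
      have hMsum : ∀ {ι : Type} (s : Finset ι) (f : ι → (L2 G →L[ℂ] L2 G)),
          (∀ i, f i ∈ spanL σ) → M (∑ i ∈ s, f i) = ∑ i ∈ s, M (f i) := by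
        intro ι s f hf
        induction s using Finset.induction_on with
        | empty => simpa using hM0
        | insert a s ha ih =>
          rw [Finset.sum_insert ha, Finset.sum_insert ha, hM.add _ (hspan _ (hf a)) _
            (hspan _ (Submodule.sum_mem _ fun i _ => hf i)), ih]
      have hMop : ∀ (E : Finset G) (a : G → ℂ), M (op σ E a) =
          op σ E (fun g => (Real.exp (-(t * d g)) : ℂ) * a g) := by
        intro E a
        induction E using Finset.induction_on with
        | empty => simpa [op] using hM0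
        | insert b s hb ih =>
          unfold op at ih ⊢
          rw [Finset.sum_insert hb, Finset.sum_insert hb,
            hM.add _ (hspan _ (Submodule.smul_mem _ _ (lam_mem b))) _
              (show (∑ x ∈ s, a x • lam σ x) ∈ vN σ from hspan _ (op_mem s a)), ih,
            hM.smul _ _ (hspan _ (lam_mem b)), hM.lam, smul_smul, mul_comm]
      have hMterm : ∀ n, M (term (fun _ => 1) n) = term (fun g => Real.exp (-(t * d g))) n := by
        intro n
        rw [hterm]
        simp only
        rw [hM.smul _ _ (hspan _ (op_mem _ _)), hMop]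
        simp
      have hlim : Tendsto (fun N => M (∑ n ∈ Finset.range N, term (fun _ => 1) n)) atTop
          (𝓝 (M x₀)) := by
        rw [tendsto_iff_norm_sub_tendsto_zero]
        have h1 : Tendsto (fun N => K * ‖∑ n ∈ Finset.range N, term (fun _ => 1) n - x₀‖) atTop
            (𝓝 0) := by
          have := (tendsto_iff_norm_sub_tendsto_zero.1 hx₀sum.tendsto_sum_nat).const_mul K
          simpa using this
        apply squeeze_zero (fun _ => norm_nonneg _) _ h1
        intro N
        have hsm : ∑ n ∈ Finset.range N, term (fun _ => 1) n ∈ spanL σ :=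
          Submodule.sum_mem _ fun n _ => htm _ n
        have hneg : (-1 : ℂ) • x₀ ∈ redC σ := by
          have : -((1 : ℂ) • x₀) ∈ closure (spanL σ : Set (L2 G →L[ℂ] L2 G)) := by
            rw [one_smul]
            exact map_mem_closure continuous_neg hx₀mem (fun a ha => Submodule.neg_mem _ ha)
          rwa [neg_smul]
        have hdiff : M (∑ n ∈ Finset.range N, term (fun _ => 1) n + (-1 : ℂ) • x₀) =
            M (∑ n ∈ Finset.range N, term (fun _ => 1) n) - M x₀ := by
          rw [hM.add _ (hspan _ hsm) _ (redC_subset_vN hneg), hM.smul _ _ hx₀v]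
          module
        have hmem : ∑ n ∈ Finset.range N, term (fun _ => 1) n + (-1 : ℂ) • x₀ ∈ redC σ := by
          apply map_mem_closure₂ continuous_add (subset_closure hsm) hneg
          intro a ha b hb
          exact Submodule.add_mem _ ha hb
        rw [← hdiff]
        have := hK _ (redC_subset_vN hmem)
        have e : ∑ n ∈ Finset.range N, term (fun _ => 1) n + (-1 : ℂ) • x₀ =
          ∑ n ∈ Finset.range N, term (fun _ => 1) n - x₀ := by module
        rwa [e] at this ⊢
      have hMpart : ∀ N, M (∑ n ∈ Finset.range N, term (fun _ => 1) n) =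
          ∑ n ∈ Finset.range N, term (fun g => Real.exp (-(t * d g))) n := by
        intro N
        rw [hMsum _ _ (fun n => htm _ n)]
        exact Finset.sum_congr rfl fun n _ => hMterm n
      have hMhat : ∀ g, hat (M x₀) g = w g := by
        intro g
        have h1 : Tendsto (fun N => hatL g (M (∑ n ∈ Finset.range N, term (fun _ => 1) n))) atTop
            (𝓝 (hatL g (M x₀))) := ((hatL g).continuous.tendsto _).comp hlim
        have h2 : Tendsto (fun N => (Real.exp (-(t * d g)) : ℂ) *
            ∑ n ∈ Finset.range N, hat (term (fun _ => 1) n) g) atTop (𝓝 (w g)) :=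
          ((hhatx g).tendsto_sum_nat).const_mul _
        have h3 : (fun N => hatL g (M (∑ n ∈ Finset.range N, term (fun _ => 1) n))) =
            fun N => (Real.exp (-(t * d g)) : ℂ) *
              ∑ n ∈ Finset.range N, hat (term (fun _ => 1) n) g := by
          funext N
          rw [hMpart, map_sum, Finset.mul_sum]
          apply Finset.sum_congr rfl
          intro n _
          rw [hatL_apply, hhat, hhat]
          split_ifs
          · push_cast
            ring
          · simp
        rw [h3] at h1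
        rw [← hatL_apply]
        exact tendsto_nhds_unique h1 h2
      refine ⟨?_, ?_⟩
      · refine mem_closure_of_tendsto hlim (Eventually.of_forall fun N => ?_)
        rw [hMpart]
        exact Submodule.sum_mem _ fun n _ => htm _ n
      · simp only [hMhat]
        exact hwop

end

end Q88.Heat
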