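import Pool.Agent.Q88.Heat.Basic

/-!
For every infinite group the system `Λ_σ(g)` is not unconditional in the reduced twisted group
C*-algebra, uniformly: Rudin-Shapiro products are flat, while suitable other products of the same
shape are not.
-/

open scoped InnerProductSpace

set_option linter.deprecated false
set_option linter.unusedSectionVars false
set_option linter.unusedVariables false

namespace Q88.Heat

noncomputable section

variable {G : Type*} [Group G] {σ : G → G → Circle}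

/-- There are arbitrarily large finite sets whose quotients avoid a given finite set. -/
theorem exists_separated [Infinite G] [DecidableEq G] (Φ : Finset G) (hΦ : ∀ x ∈ Φ, x⁻¹ ∈ Φ)
    (N : ℕ) : ∃ T : Finset G, T.card = N ∧ ∀ x ∈ T, ∀ y ∈ T, x ≠ y → x⁻¹ * y ∉ Φ := by
  induction N with
  | zero => exact ⟨∅, rfl, by simp⟩
  | succ N ih =>
    obtain ⟨T, hT, hsep⟩ := ih
    obtain ⟨g, hg⟩ := Infinite.exists_notMem_finset
      (T ∪ T.biUnion fun x => Φ.image fun φ => x * φ)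
    simp only [Finset.mem_union, not_or, Finset.mem_biUnion, Finset.mem_image, not_exists,
      not_and] at hg
    obtain ⟨hg1, hg2⟩ := hg
    refine ⟨insert g T, by rw [Finset.card_insert_of_notMem hg1, hT], ?_⟩
    have h1 : ∀ x ∈ T, x⁻¹ * g ∉ Φ := by
      intro x hx hmem
      exact hg2 x hx _ hmem (by group)
    intro x hx y hy hxy hmem
    rw [Finset.mem_insert] at hx hy
    rcases hx with rfl | hx <;> rcases hy with rfl | hy
    · exact hxy rfl
    · have := hΦ _ hmem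
      apply h1 y hy
      rwa [mul_inv_rev, inv_inv] at this
    · exact h1 x hx hmem
    · exact hsep x hx y hy hxy hmem

/-- the vector `Λ(g) V Λ(g)* δ_e` -/
def cv (σ : G → G → Circle) (V : L2 G →L[ℂ] L2 G) (g : G) : L2 G :=
  (lam σ g * V * star (lam σ g)) (dl 1)

theorem inner_cv (hσ : IsCocycle σ) {V : L2 G →L[ℂ] L2 G} (hV : V ∈ spanL σ) (hVs : star V = V)
    (g h : G) : ⟪cv σ V g, cv σ V h⟫_ℂ =
      tr (V * lam σ (g⁻¹ * h) * V * star (lam σ (g⁻¹ * h))) := by
  have h1 : ⟪cv σ V g, cv σ V h⟫_ℂ =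
      tr (star (lam σ g * V * star (lam σ g)) * (lam σ h * V * star (lam σ h))) := by
    rw [tr_apply, ContinuousLinearMap.mul_apply, ContinuousLinearMap.star_eq_adjoint (_ * _ * _),
      ContinuousLinearMap.adjoint_inner_right]
    rfl
  rw [h1, star_mul, star_mul, star_star, hVs]
  have hg := lam_mem (σ := σ) g
  have hh := lam_mem (σ := σ) h
  have e1 : lam σ g * (V * star (lam σ g)) * (lam σ h * V * star (lam σ h)) =
      lam σ g * (V * (star (lam σ g) * lam σ h) * V * star (lam σ h)) := by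
    simp only [mul_assoc]
  have hm : V * (star (lam σ g) * lam σ h) * V * star (lam σ h) ∈ spanL σ :=
    mul_mem' hσ (mul_mem' hσ (mul_mem' hσ hV (mul_mem' hσ (star_mem' hσ hg) hh)) hV)
      (star_mem' hσ hh)
  rw [e1, tr_comm hσ hg hm]
  have e2 : V * (star (lam σ g) * lam σ h) * V * star (lam σ h) * lam σ g =
      V * (star (lam σ g) * lam σ h) * V * star (star (lam σ g) * lam σ h) := by
    rw [star_mul, star_star]
    simp only [mul_assoc]
  rw [e2]
  obtain ⟨c, hc, hc'⟩ : ∃ c : ℂ, star (lam σ g) * lam σ h = c • lam σ (g⁻¹ * h) ∧ c * star c = 1 := by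
    refine ⟨adj σ g * (σ g⁻¹ h : ℂ), ?_, ?_⟩
    · rw [star_lam hσ, smul_mul_assoc, lam_mul hσ, smul_smul]
    · unfold adj
      have h1 := circle_star_mul (σ g g⁻¹)
      have h2 := circle_mul_star (σ g⁻¹ h)
      rw [star_mul', star_star]
      linear_combination (star (σ g g⁻¹ : ℂ) * (σ g g⁻¹ : ℂ)) * h2 + h1
  rw [hc, star_smul]
  simp only [mul_smul_comm, smul_mul_assoc, smul_smul]
  rw [mul_comm, hc', one_smul]

/-- Asymptotic positivity of conjugation. -/
theorem exists_conj [Infinite G] (hσ : IsCocycle σ) {V : L2 G →L[ℂ] L2 G} (hV : V ∈ spanL σ)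
    (hVs : star V = V) [DecidableEq G] (Φ : Finset G) (hΦ : ∀ x ∈ Φ, x⁻¹ ∈ Φ) {δ : ℝ}
    (hδ : 0 < δ) :
    ∃ h, h ∉ Φ ∧ -δ ≤ (tr (V * lam σ h * V * star (lam σ h))).re := by
  by_contra hcon
  push Not at hcon
  set D : ℝ := ‖cv σ V 1‖ ^ 2 with hD
  obtain ⟨N, hN⟩ := exists_nat_gt (D / δ + 1)
  obtain ⟨T, hT, hsep⟩ := exists_separated Φ hΦ N
  have hself : ∀ g : G, (⟪cv σ V g, cv σ V g⟫_ℂ).re = D := by
    intro g
    rw [inner_cv hσ hV hVs, inv_mul_cancel, hD]
    have := inner_cv hσ hV hVs (1 : G) 1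
    rw [inv_one, one_mul] at this
    rw [← this, inner_self_eq_norm_sq_to_K]
    norm_cast
  have h1 : 0 ≤ (⟪∑ g ∈ T, cv σ V g, ∑ g ∈ T, cv σ V g⟫_ℂ).re := by
    have := inner_self_nonneg (𝕜 := ℂ) (x := ∑ g ∈ T, cv σ V g)
    exact this
  have h2 : (⟪∑ g ∈ T, cv σ V g, ∑ g ∈ T, cv σ V g⟫_ℂ).re =
      ∑ g ∈ T, ∑ h ∈ T, (⟪cv σ V g, cv σ V h⟫_ℂ).re := by
    rw [sum_inner, Complex.re_sum]
    apply Finset.sum_congr rfl
    intro g _
    rw [inner_sum, Complex.re_sum]
  have h3 : ∀ g ∈ T, ∑ h ∈ T, (⟪cv σ V g, cv σ V h⟫_ℂ).re ≤ D - (N - 1) * δ := by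
    intro g hg
    rw [← Finset.add_sum_erase T _ hg, hself]
    have h4 : ∑ h ∈ T.erase g, (⟪cv σ V g, cv σ V h⟫_ℂ).re ≤ ∑ h ∈ T.erase g, (-δ) := by
      apply Finset.sum_le_sum
      intro h hh
      rw [Finset.mem_erase] at hh
      rw [inner_cv hσ hV hVs]
      exact (hcon _ (hsep g hg h hh.2 (Ne.symm hh.1))).le
    rw [Finset.sum_const, Finset.card_erase_of_mem hg, hT, nsmul_eq_mul] at h4
    have h5 : ((N - 1 : ℕ) : ℝ) = (N : ℝ) - 1 := by
      have : 1 ≤ N := by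
        rw [← hT]
        exact Finset.card_pos.2 ⟨g, hg⟩
      push_cast [Nat.cast_sub this]
      ring
    rw [h5] at h4
    linarith
  have h6 : ∑ g ∈ T, ∑ h ∈ T, (⟪cv σ V g, cv σ V h⟫_ℂ).re ≤ N * (D - (N - 1) * δ) := by
    calc _ ≤ ∑ g ∈ T, (D - (N - 1) * δ) := Finset.sum_le_sum h3
      _ = N * (D - (N - 1) * δ) := by rw [Finset.sum_const, hT, nsmul_eq_mul]
  have h7 : D - (N - 1) * δ < 0 := by
    have : D / δ < N - 1 := by linarith
    rw [div_lt_iff₀ hδ] at this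
    linarith
  have h8 : 0 < (N : ℝ) := by
    have : 0 ≤ D / δ := by positivity
    linarith
  have h9 : (N : ℝ) * (D - (N - 1) * δ) < 0 := mul_neg_of_pos_of_neg h8 h7
  rw [h2] at h1
  linarith

/-- the fourth moment -/
def s4 (Y : L2 G →L[ℂ] L2 G) : ℝ := (tr (Y * star Y * (Y * star Y))).re

theorem s4_eq (Y : L2 G →L[ℂ] L2 G) : s4 Y = ‖(Y * star Y) (dl 1)‖ ^ 2 := by
  unfold s4
  have h := tr_star_mul (Y * star Y)
  rw [star_mul, star_star] at h
  rw [h, Complex.ofReal_re]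

theorem s4_comm (hσ : IsCocycle σ) {Y : L2 G →L[ℂ] L2 G} (hY : Y ∈ spanL σ) :
    s4 Y = (tr (star Y * Y * (star Y * Y))).re := by
  unfold s4
  have h := tr_comm hσ hY (mul_mem' hσ (star_mem' hσ hY) (mul_mem' hσ hY (star_mem' hσ hY)))
  have e1 : Y * star Y * (Y * star Y) = Y * (star Y * (Y * star Y)) := by simp only [mul_assoc]
  have e2 : star Y * Y * (star Y * Y) = star Y * (Y * star Y) * Y := by simp only [mul_assoc]
  rw [e1, e2, h]

/-- The norm is bounded below by the fourth moment. -/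
theorem s4_le (hσ : IsCocycle σ) {Y : L2 G →L[ℂ] L2 G} (hY : Y ∈ spanL σ) :
    s4 Y ≤ ‖Y‖ ^ 2 * (tr (star Y * Y)).re := by
  rw [s4_eq]
  have h1 : ‖(Y * star Y) (dl 1)‖ ≤ ‖Y‖ * ‖star Y (dl 1)‖ := Y.le_opNorm _
  have h2 : (tr (star Y * Y)).re = ‖star Y (dl 1)‖ ^ 2 := by
    rw [tr_comm hσ (star_mem' hσ hY) hY]
    have := tr_star_mul (star Y)
    rw [star_star] at this
    rw [this, Complex.ofReal_re]
  rw [h2, ← mul_pow]
  exact pow_le_pow_left₀ (norm_nonneg _) h1 2

theorem pair_sum (V r : L2 G →L[ℂ] L2 G) :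
    V * ((2 : ℂ) • 1 + r) * (V * ((2 : ℂ) • 1 + r)) +
    V * ((2 : ℂ) • 1 - r) * (V * ((2 : ℂ) • 1 - r)) =
    (8 : ℂ) • (V * V) + (2 : ℂ) • (V * r * (V * r)) := by
  simp only [mul_add, add_mul, mul_sub, sub_mul, smul_mul_assoc, mul_smul_comm, mul_one,
    mul_assoc]
  module

theorem four_sum (V u w : L2 G →L[ℂ] L2 G) :
    V * ((2 : ℂ) • 1 + (u + w)) * (V * ((2 : ℂ) • 1 + (u + w))) +
    V * ((2 : ℂ) • 1 - (u + w)) * (V * ((2 : ℂ) • 1 - (u + w))) +
    (V * ((2 : ℂ) • 1 + Complex.I • (u - w)) * (V * ((2 : ℂ) • 1 + Complex.I • (u - w))) +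
    V * ((2 : ℂ) • 1 - Complex.I • (u - w)) * (V * ((2 : ℂ) • 1 - Complex.I • (u - w)))) =
    (16 : ℂ) • (V * V) + (4 : ℂ) • (V * u * V * w + V * w * V * u) := by
  rw [pair_sum, pair_sum]
  have h : V * Complex.I • (u - w) * (V * Complex.I • (u - w)) =
      - (V * (u - w) * (V * (u - w))) := by
    simp only [smul_mul_assoc, mul_smul_comm, smul_smul, Complex.I_mul_I]
    module
  rw [h]
  simp only [mul_add, add_mul, mul_sub, sub_mul, mul_assoc]
  module


theorem s4_step (hσ : IsCocycle σ) {Y : L2 G →L[ℂ] L2 G} (hY : Y ∈ spanL σ)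
    {T : L2 G →L[ℂ] L2 G} (hT : T ∈ spanL σ) {Y' : L2 G →L[ℂ] L2 G}
    (hY' : Y' * star Y' = Y * T * star Y) :
    s4 Y' = (tr (star Y * Y * T * (star Y * Y * T))).re := by
  unfold s4
  rw [hY']
  have e1 : Y * T * star Y * (Y * T * star Y) = Y * (T * (star Y * Y) * T * star Y) := by
    simp only [mul_assoc]
  have hm : T * (star Y * Y) * T * star Y ∈ spanL σ :=
    mul_mem' hσ (mul_mem' hσ (mul_mem' hσ hT (mul_mem' hσ (star_mem' hσ hY) hY)) hT)
      (star_mem' hσ hY)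
  rw [e1, tr_comm hσ hY hm]
  have e2 : T * (star Y * Y) * T * star Y * Y = T * (star Y * Y * T * (star Y * Y)) := by
    simp only [mul_assoc]
  have hm2 : star Y * Y * T * (star Y * Y) ∈ spanL σ :=
    mul_mem' hσ (mul_mem' hσ (mul_mem' hσ (star_mem' hσ hY) hY) hT)
      (mul_mem' hσ (star_mem' hσ hY) hY)
  rw [e2, tr_comm hσ hT hm2]
  simp only [mul_assoc]

theorem factor_eq (hσ : IsCocycle σ) (Y : L2 G →L[ℂ] L2 G) (h : G) (z : ℂ) (hz : z * star z = 1) :
    (Y * (1 + z • lam σ h)) * star (Y * (1 + z • lam σ h)) =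
      Y * ((2 : ℂ) • 1 + (z • lam σ h + star z • star (lam σ h))) * star Y := by
  rw [star_mul, star_add, star_one, star_smul]
  have h1 : (1 + z • lam σ h) * (1 + star z • star (lam σ h)) =
      (2 : ℂ) • 1 + (z • lam σ h + star z • star (lam σ h)) := by
    rw [add_mul, mul_add, mul_add, mul_one, mul_one, one_mul, smul_mul_assoc, mul_smul_comm,
      smul_smul, hz, lam_mul_star hσ]
    module
  rw [← h1]
  simp only [mul_assoc]

/-- The main step: multiply by a suitable factor `1 + i^m Λ(h)`. -/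
theorem step [Infinite G] [DecidableEq G] (hσ : IsCocycle σ) {Y : L2 G →L[ℂ] L2 G}
    (hY : Y ∈ spanL σ) {c : ℝ} (hc0 : 0 < c) (hc : tr (star Y * Y) = c) (Φ : Finset G)
    (hΦ : ∀ x ∈ Φ, x⁻¹ ∈ Φ) :
    ∃ h, h ∉ Φ ∧ ∃ m : ℕ, 4 * s4 Y + c ^ 2 ≤ s4 (Y * (1 + Complex.I ^ m • lam σ h)) := by
  have hYs := star_mem' hσ hY
  have hV : star Y * Y ∈ spanL σ := mul_mem' hσ hYs hY
  set V := star Y * Y with hVdef
  set V0 := V - (c : ℂ) • 1 with hV0def
  have hV0 : V0 ∈ spanL σ := Submodule.sub_mem _ hV (Submodule.smul_mem _ _ (one_mem' hσ))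
  have hV0s : star V0 = V0 := by
    rw [hV0def, star_sub, hVdef, star_mul, star_star, star_smul, star_one]
    simp
  have htr0 : tr V0 = 0 := by
    rw [hV0def, map_sub, map_smul, hc, tr_one]
    simp
  obtain ⟨h, hh, hpos⟩ := exists_conj hσ hV0 hV0s Φ hΦ (δ := c ^ 2 / 2) (by positivity)
  refine ⟨h, hh, ?_⟩
  set u := lam σ h with hu
  set w := star (lam σ h) with hw
  have hum : u ∈ spanL σ := lam_mem h
  have hwm : w ∈ spanL σ := star_mem' hσ hum
  have huw : u * w = 1 := lam_mul_star hσ h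
  have hwu : w * u = 1 := star_lam_mul h
  have hcross : tr (V * u * V * w) = (c : ℂ) ^ 2 + tr (V0 * u * V0 * w) := by
    have hVe : V = (c : ℂ) • 1 + V0 := by rw [hV0def]; abel
    have e : V * u * V * w = (c ^ 2 : ℂ) • (u * w) + (c : ℂ) • (V0 * (u * w)) +
        (c : ℂ) • (u * (V0 * w)) + V0 * u * V0 * w := by
      rw [hVe]
      simp only [mul_add, add_mul, smul_mul_assoc, mul_smul_comm, one_mul, mul_one, mul_assoc,
        smul_smul, smul_add]
      module
    rw [e, huw, mul_one, map_add, map_add, map_add, map_smul, map_smul, map_smul,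
      tr_comm hσ hum (mul_mem' hσ hV0 hwm), mul_assoc V0 w u, hwu, mul_one, htr0, tr_one]
    simp
  have hcross' : tr (V * w * V * u) = tr (V * u * V * w) := by
    have e : V * w * V * u = (V * w) * (V * u) := by simp only [mul_assoc]
    rw [e, tr_comm hσ (mul_mem' hσ hV hwm) (mul_mem' hσ hV hum)]
    simp only [mul_assoc]
  -- the four values
  have hI : ∀ m : ℕ, Complex.I ^ m * star (Complex.I ^ m) = 1 := by
    intro m
    rw [star_pow, ← mul_pow]
    simp
  have hone := one_mem' hσ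
  have hval : ∀ m : ℕ, s4 (Y * (1 + Complex.I ^ m • u)) =
      (tr (V * ((2 : ℂ) • 1 + (Complex.I ^ m • u + star (Complex.I ^ m) • w)) *
        (V * ((2 : ℂ) • 1 + (Complex.I ^ m • u + star (Complex.I ^ m) • w))))).re := by
    intro m
    exact s4_step hσ hY (Submodule.add_mem _ (Submodule.smul_mem _ _ hone)
      (Submodule.add_mem _ (Submodule.smul_mem _ _ hum) (Submodule.smul_mem _ _ hwm)))
      (factor_eq hσ Y h _ (hI m))
  have e0 : (2 : ℂ) • (1 : L2 G →L[ℂ] L2 G) + (Complex.I ^ 0 • u + star (Complex.I ^ 0) • w) =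
      (2 : ℂ) • 1 + (u + w) := by simp
  have e1 : (2 : ℂ) • (1 : L2 G →L[ℂ] L2 G) + (Complex.I ^ 1 • u + star (Complex.I ^ 1) • w) =
      (2 : ℂ) • 1 + Complex.I • (u - w) := by
    rw [pow_one]
    simp only [Complex.star_def, Complex.conj_I]
    module
  have e2 : (2 : ℂ) • (1 : L2 G →L[ℂ] L2 G) + (Complex.I ^ 2 • u + star (Complex.I ^ 2) • w) =
      (2 : ℂ) • 1 - (u + w) := by
    rw [Complex.I_sq]
    simp only [Complex.star_def, map_neg, map_one]
    module
  have e3 : (2 : ℂ) • (1 : L2 G →L[ℂ] L2 G) + (Complex.I ^ 3 • u + star (Complex.I ^ 3) • w) =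
      (2 : ℂ) • 1 - Complex.I • (u - w) := by
    rw [Complex.I_pow_three]
    simp only [Complex.star_def, map_neg, Complex.conj_I]
    module
  have hsum : s4 (Y * (1 + Complex.I ^ 0 • u)) + s4 (Y * (1 + Complex.I ^ 2 • u)) +
      (s4 (Y * (1 + Complex.I ^ 1 • u)) + s4 (Y * (1 + Complex.I ^ 3 • u))) =
      16 * s4 Y + 8 * (c ^ 2 + (tr (V0 * u * V0 * w)).re) := by
    rw [hval, hval, hval, hval, e0, e1, e2, e3, ← Complex.add_re, ← Complex.add_re,
      ← Complex.add_re, ← map_add, ← map_add, ← map_add, four_sum, map_add, map_smul, map_smul,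
      map_add, hcross', hcross, s4_comm hσ hY]
    simp only [smul_eq_mul, Complex.add_re, Complex.mul_re]
    norm_num
    have : ((c : ℂ) ^ 2).re = c ^ 2 := by
      rw [← Complex.ofReal_pow, Complex.ofReal_re]
    rw [this]
    ring
  by_contra hcon
  push Not at hcon
  have h0 := hcon 0
  have h1 := hcon 1
  have h2 := hcon 2
  have h3 := hcon 3
  linarith

end

end Q88.Heat
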