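import Pool.Agent.Q88.Heat.Growth

/-!
The iteration and the key lemma: finite Fourier series of norm at most one with large pieces.
-/

open scoped InnerProductSpace

set_option linter.deprecated false
set_option linter.unusedSectionVars false
set_option linter.unusedVariables false

namespace Q88.Heat

noncomputable section

variable {G : Type*} [Group G] {σ : G → G → Circle}

/-- The invariant of the iteration. -/
structure Good (σ : G → G → Circle) (k : ℕ) (F : Finset G) (a p q : G → ℂ) : Prop where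
  card : F.card = 2 ^ k
  unit : ∀ g ∈ F, ‖a g‖ = 1
  hp : ∀ g ∈ F, ∃ j : ℕ, p g = Complex.I ^ j * a g
  hq : ∀ g ∈ F, ∃ j : ℕ, q g = Complex.I ^ j * a g
  shapiro : op σ F p * star (op σ F p) + op σ F q * star (op σ F q) = (2 ^ (k + 1) : ℂ) • 1
  growth : (1 + (k : ℝ) / 4) * 4 ^ k ≤ s4 (op σ F a)

theorem op_translate (hσ : IsCocycle σ) [DecidableEq G] (F : Finset G) (a : G → ℂ) (h : G)
    (hdisj : ∀ f ∈ F, f * h ∉ F) (z : ℂ) (b : G → ℂ) :
    op σ (F ∪ F.image (· * h)) (fun x => if x ∈ F then a x else z * b (x * h⁻¹) * σ (x * h⁻¹) h) =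
      op σ F a + op σ F b * (z • lam σ h) := by
  unfold op
  have hd : Disjoint F (F.image (· * h)) := by
    rw [Finset.disjoint_left]
    intro x hx hx'
    obtain ⟨f, hf, rfl⟩ := Finset.mem_image.1 hx'
    exact hdisj f hf hx
  rw [Finset.sum_union hd]
  congr 1
  · apply Finset.sum_congr rfl
    intro x hx
    simp only [if_pos hx]
  · rw [Finset.sum_image (fun x _ y _ hxy => mul_right_cancel hxy), Finset.sum_mul]
    apply Finset.sum_congr rfl
    intro x hx
    simp only [if_neg (hdisj x hx)]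
    rw [smul_mul_assoc, mul_smul_comm, lam_mul hσ, smul_smul, smul_smul]
    congr 1
    rw [mul_inv_cancel_right]
    ring

theorem tr_op (hσ : IsCocycle σ) [DecidableEq G] (F : Finset G) (a : G → ℂ)
    (ha : ∀ g ∈ F, ‖a g‖ = 1) : tr (star (op σ F a) * op σ F a) = (F.card : ℝ) := by
  have h1 : star (op σ F a) * op σ F a = ∑ g ∈ F, ∑ h ∈ F,
      (star (a g) * a h) • (star (lam σ g) * lam σ h) := by
    unfold op
    rw [star_sum, Finset.sum_mul_sum]
    apply Finset.sum_congr rfl
    intro g _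
    apply Finset.sum_congr rfl
    intro h _
    rw [star_smul, smul_mul_smul_comm]
  have h2 : ∀ g h : G, tr (star (lam σ g) * lam σ h) = if g = h then 1 else 0 := by
    intro g h
    rw [star_lam hσ, smul_mul_assoc, lam_mul hσ, smul_smul, map_smul, tr_lam hσ]
    by_cases hgh : g = h
    · subst hgh
      rw [if_pos (inv_mul_cancel g), if_pos rfl, smul_eq_mul, mul_one, adj, ← sigma_inv hσ,
        circle_star_mul]
    · have : ¬ g⁻¹ * h = 1 := by
        intro h'
        exact hgh (inv_mul_eq_one.1 h')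
      rw [if_neg this, if_neg hgh]
      simp
  rw [h1, map_sum]
  have h3 : ∀ g ∈ F, tr (∑ h ∈ F, (star (a g) * a h) • (star (lam σ g) * lam σ h)) = 1 := by
    intro g hg
    rw [map_sum]
    simp only [map_smul, h2, smul_eq_mul, mul_ite, mul_one, mul_zero]
    rw [Finset.sum_ite_eq, if_pos hg]
    have := ha g hg
    rw [Complex.star_def, ← Complex.normSq_eq_conj_mul_self, Complex.normSq_eq_norm_sq, this]
    simp
  rw [Finset.sum_congr rfl h3]
  simp

theorem exists_good [Infinite G] [DecidableEq G] (hσ : IsCocycle σ) (k : ℕ) :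
    ∃ (F : Finset G) (a p q : G → ℂ), Good σ k F a p q := by
  induction k with
  | zero =>
    refine ⟨{1}, fun _ => 1, fun _ => 1, fun _ => 1, ?_, ?_, ?_, ?_, ?_, ?_⟩
    · simp
    · simp
    · intro g _; exact ⟨0, by simp⟩
    · intro g _; exact ⟨0, by simp⟩
    · simp only [op, Finset.sum_singleton, one_smul, lam_one hσ, star_one, mul_one]
      module
    · simp only [op, Finset.sum_singleton, one_smul, lam_one hσ]
      unfold s4
      rw [star_one, mul_one, mul_one, tr_one]
      norm_num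
  | succ k ih =>
    obtain ⟨F, a, p, q, hG⟩ := ih
    -- the forbidden set
    set Φ : Finset G := (F ×ˢ F).image (fun x => x.1⁻¹ * x.2) with hΦ
    have hΦs : ∀ x ∈ Φ, x⁻¹ ∈ Φ := by
      intro x hx
      rw [hΦ, Finset.mem_image] at hx ⊢
      obtain ⟨⟨y, z⟩, hyz, rfl⟩ := hx
      rw [Finset.mem_product] at hyz
      exact ⟨(z, y), Finset.mem_product.2 ⟨hyz.2, hyz.1⟩, by simp⟩
    have hc : tr (star (op σ F a) * op σ F a) = ((2 ^ k : ℝ) : ℂ) := by
      rw [tr_op hσ F a hG.unit, hG.card]
      push_cast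
      rfl
    obtain ⟨h, hh, m, hm⟩ := step hσ (op_mem F a) (c := 2 ^ k) (by positivity) hc Φ hΦs
    have hdisj : ∀ f ∈ F, f * h ∉ F := by
      intro f hf hf'
      apply hh
      rw [hΦ, Finset.mem_image]
      exact ⟨(f, f * h), Finset.mem_product.2 ⟨hf, hf'⟩, by simp⟩
    have hd : Disjoint F (F.image (· * h)) := by
      rw [Finset.disjoint_left]
      intro x hx hx'
      obtain ⟨f, hf, rfl⟩ := Finset.mem_image.1 hx'
      exact hdisj f hf hx
    set F' := F ∪ F.image (· * h) with hF'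
    set a' : G → ℂ := fun x => if x ∈ F then a x else Complex.I ^ m * a (x * h⁻¹) * σ (x * h⁻¹) h
      with ha'
    set p' : G → ℂ := fun x => if x ∈ F then p x else 1 * q (x * h⁻¹) * σ (x * h⁻¹) h with hp'
    set q' : G → ℂ := fun x => if x ∈ F then p x else (-1) * q (x * h⁻¹) * σ (x * h⁻¹) h with hq'
    have hopa : op σ F' a' = op σ F a * (1 + Complex.I ^ m • lam σ h) := by
      rw [hF', ha', op_translate hσ F a h hdisj, mul_add, mul_one]
    have hopp : op σ F' p' = op σ F p + op σ F q * lam σ h := by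
      rw [hF', hp', op_translate hσ F p h hdisj, one_smul]
    have hopq : op σ F' q' = op σ F p - op σ F q * lam σ h := by
      rw [hF', hq', op_translate hσ F p h hdisj, mul_smul_comm]
      module
    have hI4 : Complex.I ^ (3 * m) * Complex.I ^ m = 1 := by
      rw [← pow_add, show 3 * m + m = 4 * m by ring, pow_mul, Complex.I_pow_four, one_pow]
    refine ⟨F', a', p', q', ?_, ?_, ?_, ?_, ?_, ?_⟩
    · rw [hF', Finset.card_union_of_disjoint hd,
        Finset.card_image_of_injective _ (fun x y hxy => mul_right_cancel hxy), hG.card]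
      ring
    · intro g hg
      by_cases hgF : g ∈ F
      · simp only [ha', if_pos hgF]
        exact hG.unit g hgF
      · simp only [ha', if_neg hgF]
        rw [hF', Finset.mem_union] at hg
        obtain ⟨f, hf, rfl⟩ := Finset.mem_image.1 (hg.resolve_left hgF)
        rw [mul_inv_cancel_right, norm_mul, norm_mul, hG.unit f hf, norm_pow, Complex.norm_I,
          Circle.norm_coe]
        simp
    · intro g hg
      by_cases hgF : g ∈ F
      · simp only [ha', hp', if_pos hgF]
        exact hG.hp g hgF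
      · simp only [ha', hp', if_neg hgF]
        rw [hF', Finset.mem_union] at hg
        obtain ⟨f, hf, rfl⟩ := Finset.mem_image.1 (hg.resolve_left hgF)
        rw [mul_inv_cancel_right]
        obtain ⟨j, hj⟩ := hG.hq f hf
        refine ⟨j + 3 * m, ?_⟩
        rw [hj, pow_add]
        linear_combination (-(Complex.I ^ j * a f * (σ f h : ℂ))) * hI4
    · intro g hg
      by_cases hgF : g ∈ F
      · simp only [ha', hq', if_pos hgF]
        exact hG.hp g hgF
      · simp only [ha', hq', if_neg hgF]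
        rw [hF', Finset.mem_union] at hg
        obtain ⟨f, hf, rfl⟩ := Finset.mem_image.1 (hg.resolve_left hgF)
        rw [mul_inv_cancel_right]
        obtain ⟨j, hj⟩ := hG.hq f hf
        refine ⟨j + 3 * m + 2, ?_⟩
        rw [hj, pow_add, pow_add, Complex.I_sq]
        linear_combination (Complex.I ^ j * a f * (σ f h : ℂ)) * hI4
    · rw [hopp, hopq, star_add, star_sub, star_mul]
      have hu := lam_mul_star hσ h
      have e : (op σ F p + op σ F q * lam σ h) *
            (star (op σ F p) + star (lam σ h) * star (op σ F q)) +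
          (op σ F p - op σ F q * lam σ h) *
            (star (op σ F p) - star (lam σ h) * star (op σ F q)) =
          (2 : ℂ) • (op σ F p * star (op σ F p)) +
            (2 : ℂ) • (op σ F q * (lam σ h * star (lam σ h)) * star (op σ F q)) := by
        simp only [mul_add, add_mul, mul_sub, sub_mul, mul_assoc]
        module
      rw [e, hu, mul_one, ← smul_add, hG.shapiro, smul_smul]
      congr 1
      ring
    · rw [hopa]
      refine le_trans ?_ hm
      have h1 := hG.growth
      have h2 : (2 ^ k : ℝ) ^ 2 = 4 ^ k := by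
        rw [← pow_mul, mul_comm, pow_mul]
        norm_num
      rw [h2]
      push_cast
      rw [pow_succ]
      nlinarith [h1]

theorem norm_le_of_shapiro {P Q : L2 G →L[ℂ] L2 G} {c : ℝ} (hc : 0 ≤ c)
    (h : P * star P + Q * star Q = (c : ℂ) • 1) : ‖P‖ ≤ Real.sqrt c := by
  rw [← norm_star]
  apply ContinuousLinearMap.opNorm_le_bound _ (Real.sqrt_nonneg c)
  intro ξ
  have h1 : ‖star P ξ‖ ^ 2 + ‖star Q ξ‖ ^ 2 = c * ‖ξ‖ ^ 2 := by
    have e : ∀ R : L2 G →L[ℂ] L2 G, ((‖star R ξ‖ ^ 2 : ℝ) : ℂ) = ⟪ξ, (R * star R) ξ⟫_ℂ := by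
      intro R
      have h3 := inner_self_eq_norm_sq_to_K (𝕜 := ℂ) (star R ξ)
      rw [ContinuousLinearMap.mul_apply]
      have h4 : ⟪ξ, R (star R ξ)⟫_ℂ = ⟪star R ξ, star R ξ⟫_ℂ := by
        conv_rhs => rw [ContinuousLinearMap.star_eq_adjoint, ContinuousLinearMap.adjoint_inner_left]
        rfl
      rw [h4, h3]
      norm_cast
    have h2 : ((‖star P ξ‖ ^ 2 + ‖star Q ξ‖ ^ 2 : ℝ) : ℂ) = ((c * ‖ξ‖ ^ 2 : ℝ) : ℂ) := by
      rw [Complex.ofReal_add, e, e, ← inner_add_right, ← ContinuousLinearMap.add_apply, h,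
        ContinuousLinearMap.smul_apply, inner_smul_right, ContinuousLinearMap.one_apply,
        inner_self_eq_norm_sq_to_K]
      push_cast
      rfl
    exact_mod_cast h2
  have h3 : ‖star P ξ‖ ^ 2 ≤ (Real.sqrt c * ‖ξ‖) ^ 2 := by
    rw [mul_pow, Real.sq_sqrt hc]
    nlinarith [sq_nonneg ‖star Q ξ‖]
  exact (sq_le_sq₀ (norm_nonneg _) (by positivity)).1 h3

/-- The key lemma. -/
theorem key [Infinite G] [DecidableEq G] (hσ : IsCocycle σ) (C : ℝ) :
    ∃ (F : Finset G) (c : G → ℂ) (A : Finset G), A ⊆ F ∧ ‖op σ F c‖ ≤ 1 ∧ C ≤ ‖op σ A c‖ := by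
  -- choice of the stage
  obtain ⟨k, hk⟩ := exists_nat_gt (4 * (32 * C ^ 2))
  obtain ⟨F, a, p, q, hG⟩ := exists_good hσ k
  have h2k : (0 : ℝ) < 2 ^ k := by positivity
  have hP : ‖op σ F p‖ ≤ Real.sqrt (2 ^ (k + 1)) := by
    apply norm_le_of_shapiro (by positivity) (Q := op σ F q)
    rw [hG.shapiro]
    push_cast
    rfl
  have hY : (1 + (k : ℝ) / 4) * 2 ^ k ≤ ‖op σ F a‖ ^ 2 := by
    have h1 := s4_le hσ (op_mem (σ := σ) F a)
    rw [tr_op hσ F a hG.unit, hG.card, Complex.ofReal_re] at h1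
    have h2 := hG.growth.trans h1
    have h3 : (4 : ℝ) ^ k = 2 ^ k * 2 ^ k := by
      rw [← mul_pow]
      norm_num
    rw [h3] at h2
    push_cast at h2
    have h4 : (1 + (k : ℝ) / 4) * 2 ^ k * 2 ^ k ≤ ‖op σ F a‖ ^ 2 * 2 ^ k := by linarith
    exact le_of_mul_le_mul_right h4 h2k
  -- decomposition
  have hjex : ∀ g : G, ∃ j : ℕ, g ∈ F → p g = Complex.I ^ j * a g := by
    intro g
    by_cases hg : g ∈ F
    · obtain ⟨j, hj⟩ := hG.hp g hg
      exact ⟨j, fun _ => hj⟩
    · exact ⟨0, fun h => absurd h hg⟩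
  choose j hj using hjex
  set A : ℕ → Finset G := fun i => F.filter (fun g => j g % 4 = i) with hA
  have hdec : op σ F a = ∑ i ∈ Finset.range 4, (star (Complex.I ^ i)) • op σ (A i) p := by
    have h1 : ∀ i ∈ Finset.range 4, (star (Complex.I ^ i)) • op σ (A i) p =
        ∑ g ∈ F, if j g % 4 = i then a g • lam σ g else 0 := by
      intro i _
      unfold op
      rw [Finset.smul_sum, hA, ← Finset.sum_filter]
      apply Finset.sum_congr rfl
      intro g hg
      rw [Finset.mem_filter] at hg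
      rw [smul_smul, hj g hg.1]
      congr 1
      have h2 : Complex.I ^ (j g) = Complex.I ^ i := by
        have h3 := Nat.div_add_mod (j g) 4
        rw [hg.2] at h3
        rw [← h3, pow_add, pow_mul, Complex.I_pow_four, one_pow, one_mul]
      have h4 : star (Complex.I ^ i) * Complex.I ^ i = 1 := by
        rw [star_pow, ← mul_pow]
        simp
      rw [h2, ← mul_assoc, h4, one_mul]
    rw [Finset.sum_congr rfl h1, Finset.sum_comm]
    unfold op
    apply Finset.sum_congr rfl
    intro g _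
    rw [Finset.sum_ite_eq, if_pos]
    exact Finset.mem_range.2 (Nat.mod_lt _ (by norm_num))
  obtain ⟨i, hi, hbig⟩ : ∃ i ∈ Finset.range 4, ‖op σ F a‖ / 4 ≤ ‖op σ (A i) p‖ := by
    by_contra hcon
    push Not at hcon
    have h1 : ‖op σ F a‖ ≤ ∑ i ∈ Finset.range 4, ‖op σ (A i) p‖ := by
      conv_lhs => rw [hdec]
      refine (norm_sum_le _ _).trans (Finset.sum_le_sum fun i _ => ?_)
      rw [norm_smul, norm_star, norm_pow, Complex.norm_I, one_pow, one_mul]
    have h2 : ∑ i ∈ Finset.range 4, ‖op σ (A i) p‖ < ∑ i ∈ Finset.range 4, ‖op σ F a‖ / 4 :=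
      Finset.sum_lt_sum_of_nonempty ⟨0, by simp⟩ hcon
    rw [Finset.sum_const, Finset.card_range, nsmul_eq_mul] at h2
    push_cast at h2
    linarith
  set s := Real.sqrt (2 ^ (k + 1)) with hs
  have hs0 : 0 < s := Real.sqrt_pos.2 (by positivity)
  have hscale : ∀ B : Finset G, op σ B (fun g => ((s⁻¹ : ℝ) : ℂ) * p g) = ((s⁻¹ : ℝ) : ℂ) • op σ B p := by
    intro B
    unfold op
    rw [Finset.smul_sum]
    apply Finset.sum_congr rfl
    intro g _
    rw [smul_smul]
  refine ⟨F, fun g => ((s⁻¹ : ℝ) : ℂ) * p g, A i, Finset.filter_subset _ _, ?_, ?_⟩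
  · rw [hscale, norm_smul, Complex.norm_real, Real.norm_eq_abs, abs_of_pos (inv_pos.2 hs0)]
    rw [inv_mul_le_iff₀ hs0, mul_one]
    exact hP
  · rw [hscale, norm_smul, Complex.norm_real, Real.norm_eq_abs, abs_of_pos (inv_pos.2 hs0)]
    have h1 : C * (4 * s) ≤ ‖op σ F a‖ := by
      have h2 : (C * (4 * s)) ^ 2 ≤ ‖op σ F a‖ ^ 2 := by
        refine le_trans ?_ hY
        have h3 : s ^ 2 = 2 ^ (k + 1) := Real.sq_sqrt (by positivity)
        have h4 : (C * (4 * s)) ^ 2 = (32 * C ^ 2) * 2 ^ k := by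
          calc (C * (4 * s)) ^ 2 = 16 * C ^ 2 * s ^ 2 := by ring
            _ = (32 * C ^ 2) * 2 ^ k := by rw [h3, pow_succ]; ring
        rw [h4]
        apply mul_le_mul_of_nonneg_right _ h2k.le
        linarith
      exact (le_abs_self _).trans (abs_le_of_sq_le_sq h2 (norm_nonneg _))
    rw [le_inv_mul_iff₀ hs0]
    linarith

end

end Q88.Heat
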